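import Pool.Agent.Lib.MP_d2d690_an.Defs

/-!
# Nivat's conjecture: the annihilator

A configuration `c : ℤ × ℤ → ℤ` with finitely many values and at most `|B|` patterns on some
nonempty finite set `B` is annihilated by a product of operators `T^v - 1`, `v ≠ 0`
(Kari and Szabados; here a short proof with the Frobenius trick and Lagrange elimination).
-/

set_option autoImplicit false
open Polynomial

namespace Pool.Agent.MP_d2d690_an

/-- shifts of integer valued configurations -/
def annihHom : Multiplicative Z2 →* Module.End ℤ (Z2 → ℤ) where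
  toFun w :=
    { toFun := fun x z => x (z + Multiplicative.toAdd w)
      map_add' := fun _ _ => rfl
      map_smul' := fun _ _ => rfl }
  map_one' := by
    ext x z
    simp
  map_mul' v w := by
    ext x z
    change x (z + (Multiplicative.toAdd v + Multiplicative.toAdd w)) =
      x (z + Multiplicative.toAdd v + Multiplicative.toAdd w)
    rw [add_assoc]

/-- the action of the group ring on integer valued configurations -/
noncomputable def annihAct : AddMonoidAlgebra ℤ Z2 →ₐ[ℤ] Module.End ℤ (Z2 → ℤ) :=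
  AddMonoidAlgebra.lift ℤ (Module.End ℤ (Z2 → ℤ)) Z2 annihHom

lemma annihAct_single (u : Z2) (a : ℤ) (x : Z2 → ℤ) (z : Z2) :
    annihAct (AddMonoidAlgebra.single u a) x z = a * x (z + u) := by
  unfold annihAct
  rw [AddMonoidAlgebra.lift_single]
  simp [annihHom]

/-- `∑ a_u X^(m u)` -/
noncomputable def annihF (S : Finset Z2) (a : Z2 → ℤ) (m : ℕ) : AddMonoidAlgebra ℤ Z2 :=
  ∑ u ∈ S, AddMonoidAlgebra.single (m • u) (a u)

lemma annihF_apply (S : Finset Z2) (a : Z2 → ℤ) (m : ℕ) (x : Z2 → ℤ) (z : Z2) :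
    annihAct (annihF S a m) x z = ∑ u ∈ S, a u * x (z + m • u) := by
  unfold annihF
  rw [map_sum, LinearMap.sum_apply, Finset.sum_apply]
  exact Finset.sum_congr rfl fun u _ => annihAct_single _ _ _ _

lemma annihF_frob (S : Finset Z2) (a : Z2 → ℤ) (m p : ℕ) (hp : p.Prime) :
    ∃ h : AddMonoidAlgebra ℤ Z2, (annihF S a m) ^ p = annihF S a (p * m) + (p : ℤ) • h := by
  classical
  induction S using Finset.induction_on with
  | empty => exact ⟨0, by simp [annihF, hp.ne_zero]⟩
  | insert u S hu ih =>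
    obtain ⟨h, hh⟩ := ih
    have e : ∀ k, annihF (insert u S) a k = AddMonoidAlgebra.single (k • u) (a u) +
        annihF S a k := fun k => by simp [annihF, Finset.sum_insert hu]
    obtain ⟨r, hr⟩ := exists_add_pow_prime_eq hp (AddMonoidAlgebra.single (m • u) (a u))
      (annihF S a m)
    -- Fermat
    obtain ⟨k, hk⟩ : ∃ k, a u ^ p = a u + p * k := by
      have := Fact.mk hp
      have : (p : ℤ) ∣ a u ^ p - a u := by
        rw [← ZMod.intCast_zmod_eq_zero_iff_dvd]
        push_cast
        rw [ZMod.pow_card, sub_self]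
      obtain ⟨k, hk⟩ := this
      exact ⟨k, by linarith⟩
    refine ⟨AddMonoidAlgebra.single ((p * m) • u) k + h +
      AddMonoidAlgebra.single (m • u) (a u) * annihF S a m * r, ?_⟩
    rw [e, e, hr, hh, AddMonoidAlgebra.single_pow, hk, smul_smul]
    rw [AddMonoidAlgebra.single_add, smul_add, smul_add, AddMonoidAlgebra.smul_single]
    simp only [zsmul_eq_mul, smul_eq_mul, Int.cast_natCast]
    ring

lemma annih_step (S : Finset Z2) (a : Z2 → ℤ) (m : ℕ) (c : Z2 → ℤ) (M : ℤ) (hM : ∀ z, |c z| ≤ M)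
    (L : ℕ) (hL : (∑ u ∈ S, |a u|) * M ≤ L) (h : annihAct (annihF S a m) c = 0) (p : ℕ)
    (hp : p.Prime) (hpL : L < p) : annihAct (annihF S a (p * m)) c = 0 := by
  obtain ⟨g, hg⟩ := annihF_frob S a m p hp
  have h1 : annihAct ((annihF S a m) ^ p) c = 0 := by
    obtain ⟨n, rfl⟩ : ∃ n, p = n + 1 := ⟨p - 1, by have := hp.pos; omega⟩
    rw [pow_succ, map_mul, Module.End.mul_apply, h, map_zero]
  rw [hg, map_add, LinearMap.add_apply] at h1
  funext z
  have h2 := congrFun h1 z
  rw [Pi.add_apply, map_smul, LinearMap.smul_apply, Pi.smul_apply, smul_eq_mul, Pi.zero_apply] at h2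
  have hdvd : (p : ℤ) ∣ annihAct (annihF S a (p * m)) c z :=
    ⟨-(annihAct g c z), by linarith⟩
  have hb : |annihAct (annihF S a (p * m)) c z| < p := by
    rw [annihF_apply]
    calc |∑ u ∈ S, a u * c (z + (p * m) • u)| ≤ ∑ u ∈ S, |a u * c (z + (p * m) • u)| :=
          Finset.abs_sum_le_sum_abs _ _
      _ ≤ ∑ u ∈ S, |a u| * M := by
          refine Finset.sum_le_sum fun u _ => ?_
          rw [abs_mul]
          exact mul_le_mul_of_nonneg_left (hM _) (abs_nonneg _)
      _ = (∑ u ∈ S, |a u|) * M := by rw [Finset.sum_mul]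
      _ ≤ L := hL
      _ < p := by exact_mod_cast hpL
  exact Int.eq_zero_of_abs_lt_dvd hdvd hb

lemma annih_all (S : Finset Z2) (a : Z2 → ℤ) (c : Z2 → ℤ) (M : ℤ) (hM : ∀ z, |c z| ≤ M)
    (L : ℕ) (hL : (∑ u ∈ S, |a u|) * M ≤ L) (h : annihAct (annihF S a 1) c = 0) :
    ∀ m : ℕ, 0 < m → (∀ p : ℕ, p.Prime → p ∣ m → L < p) → annihAct (annihF S a m) c = 0 := by
  intro m
  induction m using Nat.strong_induction_on with
  | _ m ih =>
    intro hm hpr
    rcases Nat.eq_or_lt_of_le (Nat.succ_le_of_lt hm) with h1 | h1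
    · rw [← h1]; exact h
    · have hm1 : m ≠ 1 := by omega
      have hp := Nat.minFac_prime hm1
      obtain ⟨k, hk⟩ := Nat.minFac_dvd m
      have hk0 : 0 < k := by
        rcases Nat.eq_zero_or_pos k with h0 | h0
        · rw [h0, mul_zero] at hk; omega
        · exact h0
      have hkm : k < m := by
        rw [hk]
        have := hp.two_le
        nlinarith
      have := annih_step S a k c M hM L hL
        (ih k hkm hk0 fun p hp' hpk => hpr p hp' (hk ▸ Dvd.dvd.mul_left hpk _)) m.minFac hp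
        (hpr _ hp (Nat.minFac_dvd m))
      rw [← hk] at this
      exact this

/-- the annihilator ideal of a configuration -/
noncomputable def annihI (c : Z2 → ℤ) : Ideal (AddMonoidAlgebra ℤ Z2) where
  carrier := {x | annihAct x c = 0}
  add_mem' {x y} hx hy := by
    change annihAct (x + y) c = 0
    rw [map_add, LinearMap.add_apply, show annihAct x c = 0 from hx,
      show annihAct y c = 0 from hy, add_zero]
  zero_mem' := by
    change annihAct 0 c = 0
    rw [map_zero, LinearMap.zero_apply]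
  smul_mem' x y hy := by
    change annihAct (x * y) c = 0
    rw [map_mul, Module.End.mul_apply, show annihAct y c = 0 from hy, map_zero]

lemma mem_annihI {c : Z2 → ℤ} {x : AddMonoidAlgebra ℤ Z2} : x ∈ annihI c ↔ annihAct x c = 0 :=
  Iff.rfl

/-- Lagrange elimination -/
lemma annih_elim (S : Finset Z2) (a : Z2 → ℤ) (c : Z2 → ℤ) (r : ℕ)
    (h : ∀ k : ℕ, annihF S a (1 + k * r) ∈ annihI c) {u0 : Z2} (hu0 : u0 ∈ S) :
    AddMonoidAlgebra.single u0 (a u0) * ∏ u ∈ S.erase u0,
      ((AddMonoidAlgebra.single (r • u0) 1 : AddMonoidAlgebra ℤ Z2) -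
        AddMonoidAlgebra.single (r • u) 1) ∈ annihI c := by
  classical
  have h1 : ∀ q : (AddMonoidAlgebra ℤ Z2)[X],
      ∑ u ∈ S, AddMonoidAlgebra.single u (a u) *
        q.eval (AddMonoidAlgebra.single (r • u) 1) ∈ annihI c := by
    intro q
    have e : ∑ u ∈ S, AddMonoidAlgebra.single u (a u) *
        q.eval (AddMonoidAlgebra.single (r • u) 1) =
        ∑ k ∈ Finset.range (q.natDegree + 1), q.coeff k * annihF S a (1 + k * r) := by
      simp only [eval_eq_sum_range, annihF, Finset.mul_sum]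
      rw [Finset.sum_comm]
      refine Finset.sum_congr rfl fun k _ => Finset.sum_congr rfl fun u _ => ?_
      rw [AddMonoidAlgebra.single_pow, one_pow, mul_left_comm, AddMonoidAlgebra.single_mul_single,
        mul_one, smul_smul, add_smul, one_smul]
    rw [e]
    exact Ideal.sum_mem _ fun k _ => Ideal.mul_mem_left _ _ (h k)
  have h2 := h1 (∏ u ∈ S.erase u0, (X - C (AddMonoidAlgebra.single (r • u) 1)))
  rw [Finset.sum_eq_single_of_mem u0 hu0] at h2
  · rw [eval_prod] at h2
    simpa only [eval_sub, eval_X, eval_C] using h2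
  · intro u hu hne
    rw [eval_prod, Finset.prod_eq_zero (Finset.mem_erase.mpr ⟨hne, hu⟩), mul_zero]
    simp

lemma annih_cast (V : List Z2) (x : Z2 → ℤ) :
    (V.map (fun v => T v - 1)).prod (fun z => (x z : ℂ)) =
      fun z => ((annihAct ((V.map (fun v => AddMonoidAlgebra.single v (1 : ℤ) - 1)).prod) x z : ℤ) : ℂ)
    := by
  induction V with
  | nil =>
    funext z
    simp
  | cons v V ih =>
    rw [List.map_cons, List.prod_cons, Module.End.mul_apply, ih, List.map_cons, List.prod_cons,
      map_mul, Module.End.mul_apply]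
    funext z
    simp only [map_sub, map_one, LinearMap.sub_apply, Module.End.one_apply, Pi.sub_apply,
      annihAct_single, T_apply]
    push_cast
    ring

/-- from a relation with integer coefficients to a product of differences -/
lemma annih_of_rel (S : Finset Z2) (a : Z2 → ℤ) (c : Z2 → ℤ) (hfin : (Set.range c).Finite)
    (h : ∀ z, ∑ u ∈ S, a u * c (z + u) = 0) {u0 : Z2} (hu0 : u0 ∈ S) (ha : a u0 ≠ 0) :
    ∃ V : List Z2, (∀ v ∈ V, v ≠ 0) ∧ AnnBy V (fun z => (c z : ℂ)) := by
  classical
  -- a bound for `c`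
  obtain ⟨M, hM⟩ : ∃ M : ℤ, ∀ z, |c z| ≤ M := by
    obtain ⟨M, hM⟩ := (hfin.image (fun t => |t|)).bddAbove
    exact ⟨M, fun z => hM ⟨c z, ⟨z, rfl⟩, rfl⟩⟩
  obtain ⟨L, hL⟩ : ∃ L : ℕ, (∑ u ∈ S, |a u|) * M ≤ L :=
    ⟨((∑ u ∈ S, |a u|) * M).toNat, Int.self_le_toNat _⟩
  have h1 : annihAct (annihF S a 1) c = 0 := by
    funext z
    rw [annihF_apply]
    simpa using h z
  have h2 : ∀ k : ℕ, annihF S a (1 + k * L.factorial) ∈ annihI c := by
    intro k
    refine annih_all S a c M hM L hL h1 _ (by omega) fun p hp hdvd => ?_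
    by_contra hlt
    have h3 : p ∣ L.factorial := (hp.dvd_factorial).mpr (not_lt.mp hlt)
    have h4 : p ∣ 1 := (Nat.dvd_add_left (Dvd.dvd.mul_left h3 k)).mp hdvd
    exact hp.one_lt.ne' (Nat.dvd_one.mp h4)
  have h5 := annih_elim S a c L.factorial h2 hu0
  set r := L.factorial with hr
  have hr0 : r ≠ 0 := (Nat.factorial_pos L).ne'
  -- factor out the monomials
  have h6 : ∏ u ∈ S.erase u0, ((AddMonoidAlgebra.single (r • u0) 1 : AddMonoidAlgebra ℤ Z2) -
        AddMonoidAlgebra.single (r • u) 1) =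
      AddMonoidAlgebra.single (∑ u ∈ S.erase u0, r • u) 1 *
        ∏ u ∈ S.erase u0, ((AddMonoidAlgebra.single (r • (u0 - u)) 1 : AddMonoidAlgebra ℤ Z2) - 1) := by
    have e1 : (AddMonoidAlgebra.single (∑ u ∈ S.erase u0, r • u) 1 : AddMonoidAlgebra ℤ Z2) =
        ∏ u ∈ S.erase u0, AddMonoidAlgebra.single (r • u) 1 := by
      induction S.erase u0 using Finset.induction_on with
      | empty => simp [AddMonoidAlgebra.one_def]
      | insert u s hu ih =>
        rw [Finset.sum_insert hu, Finset.prod_insert hu, ← ih, AddMonoidAlgebra.single_mul_single,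
          mul_one]
    rw [e1, ← Finset.prod_mul_distrib]
    refine Finset.prod_congr rfl fun u _ => ?_
    rw [mul_sub, mul_one, AddMonoidAlgebra.single_mul_single, mul_one, ← smul_add,
      add_sub_cancel]
  set V : List Z2 := (S.erase u0).toList.map (fun u => r • (u0 - u)) with hV
  have h7 : (V.map (fun v => (AddMonoidAlgebra.single v (1 : ℤ) : AddMonoidAlgebra ℤ Z2) - 1)).prod =
      ∏ u ∈ S.erase u0, ((AddMonoidAlgebra.single (r • (u0 - u)) 1 : AddMonoidAlgebra ℤ Z2) - 1) := by
    rw [hV, List.map_map, ← Finset.prod_map_toList]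
    rfl
  refine ⟨V, ?_, ?_⟩
  · intro v hv
    rw [hV, List.mem_map] at hv
    obtain ⟨u, hu, rfl⟩ := hv
    rw [Finset.mem_toList, Finset.mem_erase] at hu
    intro h0
    rcases smul_eq_zero.mp h0 with h | h
    · exact hr0 h
    · exact hu.1 (sub_eq_zero.mp h).symm
  · unfold AnnBy
    rw [annih_cast, h7]
    rw [h6, ← mul_assoc, AddMonoidAlgebra.single_mul_single, mul_one, mem_annihI, map_mul,
      Module.End.mul_apply] at h5
    funext z
    have h8 := congrFun h5 (z - (u0 + ∑ u ∈ S.erase u0, r • u))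
    rw [annihAct_single, sub_add_cancel, Pi.zero_apply] at h8
    rcases mul_eq_zero.mp h8 with h | h
    · exact absurd h ha
    · rw [h]; simp

/-- the integral relation -/
lemma annih_rel {c : Z2 → ℤ} (hfin : (Set.range c).Finite) {B : Finset Z2}
    (hP : (Pats c B).ncard ≤ B.card) : ∃ (g : Z2 → ℤ) (g0 : ℤ), (∀ z, z ∉ B → g z = 0) ∧
      (∃ b ∈ B, g b ≠ 0) ∧ ∀ z, ∑ b ∈ B, g b * c (z + b) = g0 := by
  classical
  have hPfin : (Pats c B).Finite := by
    refine (Set.Finite.pi' (ι := B) (fun _ => hfin)).subset ?_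
    rintro p ⟨u, rfl⟩ b
    exact ⟨_, rfl⟩
  have : Fintype (Pats c B) := hPfin.fintype
  let Φ : (ℤ × (B → ℤ)) →ₗ[ℤ] (Pats c B → ℤ) :=
    { toFun := fun g p => g.1 + ∑ b : B, g.2 b * (p : B → ℤ) b
      map_add' := fun g h => by
        funext p
        simp only [Prod.fst_add, Prod.snd_add, Pi.add_apply, add_mul, Finset.sum_add_distrib]
        ring
      map_smul' := fun t g => by
        funext p
        simp only [Prod.smul_fst, Prod.smul_snd, Pi.smul_apply, smul_eq_mul, RingHom.id_apply,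
          mul_add, Finset.mul_sum, mul_assoc] }
  have hni : ¬ Function.Injective Φ := by
    intro hinj
    have h1 := LinearMap.finrank_le_finrank_of_injective hinj
    rw [Module.finrank_prod, Module.finrank_self, Module.finrank_fintype_fun_eq_card,
      Module.finrank_fintype_fun_eq_card, Fintype.card_coe] at h1
    have h2 : Fintype.card (Pats c B) = (Pats c B).ncard := by
      rw [← Nat.card_eq_fintype_card, Nat.card_coe_set_eq]
    omega
  obtain ⟨x, hx0, hx⟩ : ∃ x, x ≠ 0 ∧ Φ x = 0 := by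
    rw [← LinearMap.ker_eq_bot, Submodule.eq_bot_iff] at hni
    push Not at hni
    obtain ⟨x, hx, hx0⟩ := hni
    exact ⟨x, hx0, hx⟩
  have hrel : ∀ z, x.1 + ∑ b : B, x.2 b * c ((b : Z2) + z) = 0 := fun z =>
    congrFun hx ⟨_, ⟨z, rfl⟩⟩
  refine ⟨fun z => if h : z ∈ B then x.2 ⟨z, h⟩ else 0, -x.1, ?_, ?_, ?_⟩
  · intro z hz
    simp [hz]
  · by_contra hcon
    push Not at hcon
    have h2 : x.2 = 0 := by
      funext b
      have := hcon b b.2
      simpa using this
    have h1 : x.1 = 0 := by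
      have := hrel 0
      rw [h2] at this
      simpa using this
    exact hx0 (Prod.ext h1 h2)
  · intro z
    rw [← Finset.sum_coe_sort B]
    have := hrel z
    have e : ∑ b : B, (if h : (b : Z2) ∈ B then x.2 ⟨b, h⟩ else 0) * c (z + (b : Z2)) =
        ∑ b : B, x.2 b * c ((b : Z2) + z) := by
      refine Finset.sum_congr rfl fun b _ => ?_
      rw [dif_pos b.2, add_comm z]
    rw [e]
    linarith

/-- ANNIH -/
theorem exists_ann {c : Z2 → ℤ} (hfin : (Set.range c).Finite) {B : Finset Z2} (hB : B.Nonempty)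
    (hP : (Pats c B).ncard ≤ B.card) : ∃ V : List Z2, (∀ v ∈ V, v ≠ 0) ∧ AnnBy V (fun z => (c z : ℂ)) := by
  classical
  obtain ⟨g, g0, hg, ⟨b1, hb1, hgb1⟩, hrel⟩ := annih_rel hfin hP
  set ε : Z2 := (1, 0) with hε
  -- a point of the support with maximal first coordinate
  obtain ⟨b0, hb0, hmax⟩ := Finset.exists_max_image (B.filter (fun b => g b ≠ 0)) (fun b => b.1)
    ⟨b1, Finset.mem_filter.mpr ⟨hb1, hgb1⟩⟩
  rw [Finset.mem_filter] at hb0
  have hb0' : g (b0 + ε) = 0 := by
    by_contra hne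
    have hmem : b0 + ε ∈ B := by
      by_contra hn
      exact hne (hg _ hn)
    have := hmax (b0 + ε) (Finset.mem_filter.mpr ⟨hmem, hne⟩)
    simp [hε] at this
  refine annih_of_rel (B ∪ B.image (fun b => b + ε)) (fun u => g (u - ε) - g u) c hfin ?_
    (u0 := b0 + ε) ?_ ?_
  · intro z
    have e1 : ∑ u ∈ B ∪ B.image (fun b => b + ε), g u * c (z + u) = g0 := by
      rw [← hrel z]
      refine (Finset.sum_subset Finset.subset_union_left ?_).symm
      intro u _ hu
      rw [hg u hu, zero_mul]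
    have e2 : ∑ u ∈ B ∪ B.image (fun b => b + ε), g (u - ε) * c (z + u) = g0 := by
      rw [← hrel (z + ε)]
      rw [← Finset.sum_subset (Finset.subset_union_right (s₁ := B))]
      · rw [Finset.sum_image (fun x _ y _ h => add_right_cancel h)]
        refine Finset.sum_congr rfl fun b _ => ?_
        rw [add_sub_cancel_right, add_assoc z ε b, add_comm ε b]
      · intro u _ hu
        rw [hg (u - ε), zero_mul]
        intro hmem
        exact hu (Finset.mem_image.mpr ⟨u - ε, hmem, sub_add_cancel _ _⟩)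
    simp only [sub_mul, Finset.sum_sub_distrib]
    rw [e1, e2, sub_self]
  · exact Finset.mem_union_right _ (Finset.mem_image.mpr ⟨b0, hb0.1, rfl⟩)
  · rw [add_sub_cancel_right, hb0', sub_zero]
    exact hb0.2

end Pool.Agent.MP_d2d690_an
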