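import Pool.Agent.Lib.MP_d2d690_an.Defs

/-!
# Nivat's conjecture: the minimal root set of a periodic configuration
-/

set_option autoImplicit false
open Polynomial
namespace Pool.Agent.MP_d2d690_an

/-- MINL: minimal root set -/
theorem exists_Lambda {e : Z2 → ℂ} (he : e ≠ 0) (w : Z2) (q : ℕ) (hq : 0 < q) (h : (T (q • w) - 1) e = 0) :
    ∃ Λ : Finset ℂ, (0 : ℂ) ∉ Λ ∧ pa (PhiL Λ) w e = 0 ∧ (∀ l ∈ Λ, pa (PhiL (Λ.erase l)) w e ≠ 0) ∧
      PhiL Λ ∣ X ^ q - 1 := by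
  classical
  have hprod : (X ^ q - 1 : ℂ[X]) = PhiL (nthRootsFinset q (1 : ℂ)) :=
    X_pow_sub_one_eq_prod hq (Complex.isPrimitiveRoot_exp q hq.ne')
  have hfull : pa (PhiL (nthRootsFinset q (1 : ℂ))) w e = 0 := by
    rw [← hprod]
    have h1 : pa (X ^ q - 1) w = T (q • w) - 1 := by
      unfold pa
      rw [map_sub, map_pow, aeval_X, map_one, T_pow]
    rw [h1, h]
  let 𝒮 : Finset (Finset ℂ) :=
    (nthRootsFinset q (1 : ℂ)).powerset.filter (fun Λ => pa (PhiL Λ) w e = 0)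
  have hne : 𝒮.Nonempty :=
    ⟨nthRootsFinset q (1 : ℂ), Finset.mem_filter.2 ⟨Finset.mem_powerset_self _, hfull⟩⟩
  obtain ⟨Λ, hΛ, hmin⟩ := 𝒮.exists_min_image Finset.card hne
  obtain ⟨hsub, h0⟩ := Finset.mem_filter.1 hΛ
  rw [Finset.mem_powerset] at hsub
  refine ⟨Λ, ?_, h0, ?_, ?_⟩
  · intro hz
    have h1 := (mem_nthRootsFinset hq (1 : ℂ)).1 (hsub hz)
    rw [zero_pow hq.ne'] at h1
    exact zero_ne_one h1
  · intro l hl hann
    have h1 : Λ.erase l ∈ 𝒮 :=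
      Finset.mem_filter.2 ⟨Finset.mem_powerset.2 ((Finset.erase_subset l Λ).trans hsub), hann⟩
    have h2 := hmin _ h1
    have h3 := Finset.card_erase_lt_of_mem hl
    omega
  · rw [hprod]
    exact Finset.prod_dvd_prod_of_subset _ _ _ hsub

end Pool.Agent.MP_d2d690_an
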