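import Pool.Agent.Lib.MP_d2d690_an.Defs

/-!
# Nivat's conjecture, module PEEL

Half plane configurations annihilated by a transversal polynomial vanish; bounded configurations
annihilated by a power of `T v - 1` are `v`-periodic.
-/

set_option autoImplicit false
open Polynomial

namespace Pool.Agent.MP_d2d690_an

lemma peel_dot_add (a b ν : Z2) : dot (a + b) ν = dot a ν + dot b ν := by
  simp only [dot, Prod.fst_add, Prod.snd_add]
  ring

lemma peel_dot_sub (a b ν : Z2) : dot (a - b) ν = dot a ν - dot b ν := by
  simp only [dot, Prod.fst_sub, Prod.snd_sub]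
  ring

lemma peel_dot_nsmul (n : ℕ) (a ν : Z2) : dot (n • a) ν = n * dot a ν := by
  have h1 : (n • a).1 = n * a.1 := by rw [Prod.smul_fst, nsmul_eq_mul]
  have h2 : (n • a).2 = n * a.2 := by rw [Prod.smul_snd, nsmul_eq_mul]
  unfold dot
  rw [h1, h2]
  ring

theorem peel {x : Z2 → ℂ} {w ν : Z2} {f : ℂ[X]} (hf : f.coeff 0 ≠ 0) (hw : dot w ν ≠ 0) (hx : HP ν x)
    (h : pa f w x = 0) : x = 0 := by
  obtain ⟨t, ht⟩ := hx
  have hf0 : f ≠ 0 := by
    rintro rfl
    simp at hf
  have key : ∀ k : ℕ, ∀ z, dot z ν < t + k → x z = 0 := by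
    intro k
    induction k with
    | zero =>
      intro z hz
      exact ht z (by simpa using hz)
    | succ k ih =>
      intro z hz
      push_cast at hz
      rcases lt_or_gt_of_ne hw with hneg | hpos
      · have h1 : pa f w x z = 0 := by rw [h]; rfl
        rw [pa_apply, Finset.sum_eq_single 0] at h1
        · rw [zero_smul, add_zero] at h1
          exact (mul_eq_zero.mp h1).resolve_left hf
        · intro i _ hi
          rw [ih (z + i • w), mul_zero]
          rw [peel_dot_add, peel_dot_nsmul]
          have hi1 : (1 : ℤ) ≤ i := by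
            exact_mod_cast Nat.one_le_iff_ne_zero.mpr hi
          nlinarith
        · intro h0
          exact absurd (Finset.mem_range.mpr (Nat.succ_pos _)) h0
      · have h1 : pa f w x (z - f.natDegree • w) = 0 := by rw [h]; rfl
        rw [pa_apply, Finset.sum_eq_single f.natDegree] at h1
        · rw [sub_add_cancel] at h1
          exact (mul_eq_zero.mp h1).resolve_left (by
            rw [coeff_natDegree]
            exact leadingCoeff_ne_zero.mpr hf0)
        · intro i hi hne
          rw [ih, mul_zero]
          rw [peel_dot_add, peel_dot_sub, peel_dot_nsmul, peel_dot_nsmul]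
          have hi1 : (i : ℤ) + 1 ≤ f.natDegree := by
            have := Finset.mem_range.mp hi
            have h2 : i < f.natDegree := lt_of_le_of_ne (Nat.lt_succ_iff.mp this) hne
            exact_mod_cast h2
          nlinarith
        · intro h0
          exact absurd (Finset.mem_range.mpr (Nat.lt_succ_self _)) h0
  funext z
  refine key (dot z ν - t + 1).toNat z ?_
  have := Int.self_le_toNat (dot z ν - t + 1)
  linarith

lemma peel_finite_range {x : Z2 → ℂ} (hx : (Set.range x).Finite) (v : Z2) :
    (Set.range ((T v - 1) x)).Finite := by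
  refine ((hx.prod hx).image fun p : ℂ × ℂ => p.1 - p.2).subset ?_
  rintro _ ⟨z, rfl⟩
  exact ⟨(x (z + v), x z), ⟨⟨z + v, rfl⟩, ⟨z, rfl⟩⟩, rfl⟩

lemma peel_finite_range_pow {x : Z2 → ℂ} (hx : (Set.range x).Finite) (v : Z2) (n : ℕ) :
    (Set.range (((T v - 1) ^ n) x)).Finite := by
  induction n with
  | zero => simpa using hx
  | succ n ih =>
    rw [pow_succ', Module.End.mul_apply]
    exact peel_finite_range ih v

lemma peel_two {y : Z2 → ℂ} (hy : (Set.range y).Finite) (v : Z2)
    (h : (T v - 1) ((T v - 1) y) = 0) : (T v - 1) y = 0 := by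
  set d : Z2 → ℂ := (T v - 1) y with hd
  have hdz : ∀ z, d z = y (z + v) - y z := fun z => rfl
  have hper : ∀ z, d (z + v) = d z := by
    intro z
    have h1 : ((T v - 1) d) z = 0 := by rw [h]; rfl
    exact sub_eq_zero.mp h1
  have hperk : ∀ (k : ℕ) z, d (z + k • v) = d z := by
    intro k
    induction k with
    | zero => intro z; simp
    | succ k ih =>
      intro z
      rw [succ_nsmul, ← add_assoc, hper, ih]
  have hy1 : ∀ (k : ℕ) z, y (z + k • v) = y z + k * d z := by
    intro k
    induction k with
    | zero => intro z; simp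
    | succ k ih =>
      intro z
      have h1 := hdz (z + k • v)
      rw [hperk, ih] at h1
      rw [succ_nsmul, ← add_assoc]
      push_cast
      linear_combination -h1
  funext z
  by_contra hne
  have hne' : d z ≠ 0 := hne
  have hinj : Function.Injective fun k : ℕ => y (z + k • v) := by
    intro a b hab
    simp only [hy1] at hab
    have h2 : ((a : ℂ) - b) * d z = 0 := by linear_combination hab
    rcases mul_eq_zero.mp h2 with h3 | h3
    · exact_mod_cast sub_eq_zero.mp h3
    · exact absurd h3 hne'
  exact Set.infinite_of_injective_forall_mem (s := Set.range y) hinj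
    (fun k => Set.mem_range_self (z + k • v)) hy

/-- BDD -/
theorem bdd_pow {x : Z2 → ℂ} (hx : (Set.range x).Finite) (v : Z2) (n : ℕ) (h : ((T v - 1) ^ (n + 1)) x = 0) :
    (T v - 1) x = 0 := by
  induction n with
  | zero => simpa using h
  | succ n ih =>
    apply ih
    have h1 : (T v - 1) ((T v - 1) (((T v - 1) ^ n) x)) = 0 := by
      rw [pow_succ', pow_succ'] at h
      exact h
    have h2 := peel_two (peel_finite_range_pow hx v n) v h1
    rw [pow_succ', Module.End.mul_apply]
    exact h2

end Pool.Agent.MP_d2d690_an
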