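import Pool.Agent.Lib.MP_d2d690_an.Defs
import Pool.Agent.Lib.MP_d2d690_an.Peel
import Pool.Agent.Lib.MP_d2d690_an.MinL

/-!
# Nivat's conjecture: from a half plane configuration to `HPdata`
-/

set_option autoImplicit false
open Polynomial
namespace Pool.Agent.MP_d2d690_an

/-- the operators `T u - 1` commute -/
lemma HPD_comm (u v : Z2) : Commute (T u - 1) (T v - 1) :=
  ((show Commute (T u) (T v) from T_comm u v).sub_right (Commute.one_right _)).sub_left
    ((Commute.one_left _).sub_right (Commute.one_left _))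

lemma HPD_HP_T {ν : Z2} {x : Z2 → ℂ} (h : HP ν x) (u : Z2) : HP ν ((T u - 1) x) := by
  obtain ⟨t, ht⟩ := h
  refine ⟨min t (t - dot u ν), fun z hz => ?_⟩
  have h1 : x z = 0 := ht z (hz.trans_le (min_le_left _ _))
  have h2 : x (z + u) = 0 := by
    apply ht
    have h3 := hz.trans_le (min_le_right _ _)
    have h4 : dot (z + u) ν = dot z ν + dot u ν := by
      simp only [dot, Prod.fst_add, Prod.snd_add]
      ring
    omega
  simp [h1, h2]

lemma HPD_HP_pow {ν : Z2} {x : Z2 → ℂ} (h : HP ν x) (u : Z2) (n : ℕ) :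
    HP ν (((T u - 1) ^ n) x) := by
  induction n with
  | zero => simpa using h
  | succ n ih =>
    rw [pow_succ', Module.End.mul_apply]
    exact HPD_HP_T ih u

lemma HPD_ann_cons {V : List Z2} {u : Z2} {x : Z2 → ℂ} (h : AnnBy (u :: V) x) :
    AnnBy V ((T u - 1) x) := by
  unfold AnnBy at h ⊢
  rw [List.map_cons, List.prod_cons] at h
  have hc : Commute (T u - 1) (V.map fun v => T v - 1).prod := by
    apply Commute.list_prod_right
    intro y hy
    obtain ⟨v, _, rfl⟩ := List.mem_map.1 hy
    exact HPD_comm u v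
  rw [hc.eq, Module.End.mul_apply] at h
  exact h

/-- a vector orthogonal to `ν` is a multiple of the primitive vector `w` -/
lemma HPD_par {w ν u : Z2} (hw : IsCoprime w.1 w.2) (hν : ν ≠ 0) (hwν : dot w ν = 0)
    (hu : dot u ν = 0) : ∃ m : ℤ, u = m • w := by
  obtain ⟨a, b, hab⟩ := hw
  simp only [dot] at hwν hu
  have h1 : ν.1 = -((a * ν.2 - b * ν.1) * w.2) := by linear_combination (-ν.1) * hab + a * hwν
  have h2 : ν.2 = (a * ν.2 - b * ν.1) * w.1 := by linear_combination (-ν.2) * hab + b * hwν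
  set k : ℤ := a * ν.2 - b * ν.1 with hk
  have hk0 : k ≠ 0 := by
    intro h0
    apply hν
    rw [h0] at h1 h2
    ext
    · simpa using h1
    · simpa using h2
  have h3 : u.2 * w.1 = u.1 * w.2 := by
    have : k * (u.2 * w.1) = k * (u.1 * w.2) := by
      rw [h1, h2] at hu
      linear_combination hu
    exact mul_left_cancel₀ hk0 this
  refine ⟨a * u.1 + b * u.2, ?_⟩
  ext
  · simp only [Prod.smul_fst, smul_eq_mul]
    linear_combination (-u.1) * hab - b * h3
  · simp only [Prod.smul_snd, smul_eq_mul]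
    linear_combination (-u.2) * hab + a * h3

lemma HPD_per {y : Z2 → ℂ} {w : Z2} {m : ℤ} (h : (T (m • w) - 1) y = 0) (q : ℕ) :
    (T ((m.natAbs * q) • w) - 1) y = 0 := by
  have hp : Function.Periodic y (m • w) := by
    intro z
    have := congrFun h z
    simp only [LinearMap.sub_apply, Module.End.one_apply, Pi.sub_apply, T_apply, Pi.zero_apply,
      sub_eq_zero] at this
    exact this
  have hq : Function.Periodic y ((m.natAbs * q) • w) := by
    rcases Int.natAbs_eq m with hm | hm
    · have := hp.nsmul q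
      have e : (m.natAbs * q) • w = q • (m • w) := by
        rw [mul_comm, mul_smul]
        congr 1
        conv_rhs => rw [hm]
        simp
      rw [e]
      exact this
    · have := hp.neg.nsmul q
      have e : (m.natAbs * q) • w = q • (-(m • w)) := by
        rw [mul_comm, mul_smul]
        congr 1
        conv_rhs => rw [hm]
        simp
      rw [e]
      exact this
  funext z
  simp only [LinearMap.sub_apply, Module.End.one_apply, Pi.sub_apply, T_apply, Pi.zero_apply,
    sub_eq_zero]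
  exact hq z

/-- the reduction to the direction `w` -/
lemma HPD_reduce {w ν : Z2} (hw : IsCoprime w.1 w.2) (hν : ν ≠ 0) (hwν : dot w ν = 0)
    (V : List Z2) : (∀ v ∈ V, v ≠ 0) → ∀ x : Z2 → ℂ, HP ν x → AnnBy V x →
      ∃ q n : ℕ, 0 < q ∧ ((T (q • w) - 1) ^ n) x = 0 := by
  induction V with
  | nil =>
    intro _ x _ hx
    refine ⟨1, 0, one_pos, ?_⟩
    simpa [AnnBy] using hx
  | cons u V ih =>
    intro hV x hx hann
    obtain ⟨q, n, hq, hn⟩ := ih (fun v hv => hV v (List.mem_cons_of_mem _ hv)) _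
      (HPD_HP_T hx u) (HPD_ann_cons hann)
    have hn' : (T u - 1) (((T (q • w) - 1) ^ n) x) = 0 := by
      have hc : Commute ((T (q • w) - 1) ^ n) (T u - 1) := (HPD_comm _ _).pow_left n
      rw [← Module.End.mul_apply, ← hc.eq, Module.End.mul_apply]
      exact hn
    set y := ((T (q • w) - 1) ^ n) x with hy
    have hyν : HP ν y := HPD_HP_pow hx _ _
    by_cases hu : dot u ν = 0
    · obtain ⟨m, hm⟩ := HPD_par hw hν hwν hu
      have hm0 : m ≠ 0 := by
        rintro rfl
        exact hV u List.mem_cons_self (by rw [hm, zero_smul])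
      have hper : (T ((m.natAbs * q) • w) - 1) y = 0 := HPD_per (hm ▸ hn') q
      refine ⟨m.natAbs * q, n + 1, Nat.mul_pos (Int.natAbs_pos.2 hm0) hq, ?_⟩
      set A := T (q • w) with hA
      have hAk : T ((m.natAbs * q) • w) = A ^ m.natAbs := by
        rw [hA, T_pow, mul_smul]
      rw [hAk] at hper ⊢
      set R := ∑ i ∈ Finset.range m.natAbs, A ^ i with hR
      have hRA : A ^ m.natAbs - 1 = R * (A - 1) := (geom_sum_mul A m.natAbs).symm
      have hcR : Commute R (A - 1) := by
        change R * (A - 1) = (A - 1) * R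
        rw [hR, geom_sum_mul, mul_geom_sum]
      have hcB : Commute ((A - 1) ^ n) (A ^ m.natAbs - 1) := by
        rw [hRA]
        exact (hcR.symm.mul_right (Commute.refl _)).pow_left n
      rw [pow_succ]
      rw [show (A ^ m.natAbs - 1) ^ n = R ^ n * (A - 1) ^ n by rw [hRA, hcR.mul_pow]]
      rw [mul_assoc, hcB.eq, Module.End.mul_apply, Module.End.mul_apply, ← hy, hper, map_zero]
    · refine ⟨q, n, hq, ?_⟩
      refine peel (f := X - C 1) (w := u) (ν := ν) (by simp) hu hyν ?_
      have e : pa (X - C 1) u = T u - 1 := by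
        unfold pa
        simp
      rw [e]
      exact hn'

/-- from a half plane configuration to `HPdata` -/
theorem exists_HPdata (V : List Z2) (hV : ∀ v ∈ V, v ≠ 0) {e : Z2 → ℂ} (hfin : (Set.range e).Finite)
    (he : e ≠ 0) (hann : AnnBy V e) {ν : Z2} (hν : ν ≠ 0) (hhp : HP ν e) {v : Z2} (hv : v ≠ 0) (hvν : dot v ν = 0) :
    ∃ (w ν' : Z2) (Λ : Finset ℂ) (q : ℕ), 0 < q ∧ HPdata e w ν' Λ ∧ PhiL Λ ∣ X ^ q - 1 ∧ det w v = 0 := by
  -- the primitive vector
  have hg : 0 < Int.gcd v.1 v.2 := by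
    rw [Int.gcd_pos_iff]
    by_contra hcon
    push Not at hcon
    exact hv (Prod.ext hcon.1 hcon.2)
  obtain ⟨w1, w2, hw12, hv1, hv2⟩ := Int.exists_gcd_one hg
  have hgz : (Int.gcd v.1 v.2 : ℤ) ≠ 0 := by exact_mod_cast hg.ne'
  set g : ℤ := (Int.gcd v.1 v.2 : ℤ) with hgdef
  set w : Z2 := (w1, w2) with hw
  have hwc : IsCoprime w.1 w.2 := Int.isCoprime_iff_gcd_eq_one.2 hw12
  have hwν : dot w ν = 0 := by
    have : g * dot w ν = 0 := by
      rw [← hvν]
      simp only [dot, hw]
      rw [hv1, hv2]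
      ring
    exact (mul_eq_zero.1 this).resolve_left hgz
  have hdet : det w v = 0 := by
    simp only [det, hw]
    rw [hv1, hv2]
    ring
  -- the annihilator in direction w
  obtain ⟨q, n, hq, hn⟩ := HPD_reduce hwc hν hwν V hV e hhp hann
  have hq1 : (T (q • w) - 1) e = 0 := by
    cases n with
    | zero => exact absurd (by simpa using hn) he
    | succ n => exact bdd_pow hfin (q • w) n hn
  obtain ⟨Λ, h0, h1, h2, h3⟩ := exists_Lambda he w q hq hq1
  -- the normal
  obtain ⟨k, hk⟩ : ∃ k : ℤ, ν = k • perp w := by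
    obtain ⟨a, b, hab⟩ := hwc
    refine ⟨a * ν.2 - b * ν.1, ?_⟩
    simp only [dot] at hwν
    ext
    · simp only [perp, Prod.smul_fst, smul_eq_mul]
      linear_combination (-ν.1) * hab + a * hwν
    · simp only [perp, Prod.smul_snd, smul_eq_mul]
      linear_combination (-ν.2) * hab + b * hwν
  have hk0 : k ≠ 0 := by
    rintro rfl
    exact hν (by rw [hk, zero_smul])
  obtain ⟨t, ht⟩ := hhp
  rcases lt_or_gt_of_ne hk0 with hneg | hpos
  · refine ⟨w, -perp w, Λ, q, hq, ⟨he, hwc, Or.inr rfl, ⟨-|t|, fun z hz => ht z ?_⟩, h0, h1, h2⟩,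
      h3, hdet⟩
    have e1 : dot z ν = -k * dot z (-perp w) := by
      rw [hk]
      simp only [dot, Prod.smul_fst, Prod.smul_snd, smul_eq_mul, Prod.fst_neg, Prod.snd_neg]
      ring
    rw [e1]
    have h4 : -|t| ≤ t := neg_abs_le t
    have h5 := abs_nonneg t
    nlinarith
  · refine ⟨w, perp w, Λ, q, hq, ⟨he, hwc, Or.inl rfl, ⟨-|t|, fun z hz => ht z ?_⟩, h0, h1, h2⟩,
      h3, hdet⟩
    have e1 : dot z ν = k * dot z (perp w) := by
      rw [hk]
      simp only [dot, Prod.smul_fst, Prod.smul_snd, smul_eq_mul]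
      ring
    rw [e1]
    have h4 : -|t| ≤ t := neg_abs_le t
    have h5 := abs_nonneg t
    nlinarith

end Pool.Agent.MP_d2d690_an
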