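import Pool.Agent.Lib.MP_d2d690_an.Half
import Pool.Agent.Lib.MP_d2d690_an.HPD

/-!
# Nivat's conjecture: half plane differences in the orbit closure (module CASEA)
-/

set_option autoImplicit false
open Polynomial
namespace Pool.Agent.MP_d2d690_an

theorem caseA_ann_T {V : List Z2} {c : Z2 → ℂ} (h : AnnBy V c) (u : Z2) : AnnBy V (T u c) := by
  unfold AnnBy at *
  have hcomm : Commute ((V.map (fun v => T v - 1)).prod) (T u) := by
    apply Commute.list_prod_left
    intro x hx
    rw [List.mem_map] at hx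
    obtain ⟨v, _, rfl⟩ := hx
    exact (show Commute (T v) (T u) from T_comm v u).sub_left (Commute.one_left _)
  have h1 : ((V.map (fun v => T v - 1)).prod) (T u c) = ((V.map (fun v => T v - 1)).prod * T u) c := rfl
  rw [h1, hcomm.eq, Module.End.mul_apply, h, map_zero]

theorem caseA_ann_sub {V : List Z2} {c c' : Z2 → ℂ} (h : AnnBy V c) (h' : AnnBy V c') :
    AnnBy V (c - c') := by
  unfold AnnBy at *
  rw [map_sub, h, h', sub_zero]

theorem caseA_lim (V : List Z2) (f : ℕ → Z2 → ℂ) (g : Z2 → ℂ)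
    (h : ∀ z, ∀ᶠ n in (Filter.hyperfilter ℕ : Filter ℕ), f n z = g z) :
    ∀ z, ∀ᶠ n in (Filter.hyperfilter ℕ : Filter ℕ),
      ((V.map (fun v => T v - 1)).prod (f n)) z = ((V.map (fun v => T v - 1)).prod g) z := by
  induction V with
  | nil =>
    intro z
    simpa using h z
  | cons v V ih =>
    intro z
    filter_upwards [ih z, ih (z + v)] with n h1 h2
    rw [List.map_cons, List.prod_cons, Module.End.mul_apply, Module.End.mul_apply,
      LinearMap.sub_apply, LinearMap.sub_apply, Pi.sub_apply, Pi.sub_apply, T_apply, T_apply, h2,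
      Module.End.one_apply, Module.End.one_apply, h1]

theorem caseA_fin (n : ℕ) : {z : Z2 | dot z z ≤ n}.Finite := by
  apply Set.Finite.subset (((Set.finite_Icc (-(n : ℤ)) n)).prod (Set.finite_Icc (-(n : ℤ)) n))
  intro z hz
  have hz' : z.1 * z.1 + z.2 * z.2 ≤ n := hz
  rw [Set.mem_prod, Set.mem_Icc, Set.mem_Icc]
  have key : ∀ a b : ℤ, a * a + b * b ≤ n → -(n : ℤ) ≤ a ∧ a ≤ n := by
    intro a b hab
    constructor
    · nlinarith [mul_self_nonneg b, mul_self_nonneg (a + 1), mul_self_nonneg a]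
    · nlinarith [mul_self_nonneg b, mul_self_nonneg (a - 1), mul_self_nonneg a]
  exact ⟨key _ _ hz', key z.2 z.1 (by linarith)⟩

theorem caseA_pigeon {c : Z2 → ℂ} (hfin : (Set.range c).Finite) (n : ℕ) :
    ∃ u u' : Z2, u ≠ u' ∧ ∀ z, dot z z ≤ n → c (z + u) = c (z + u') := by
  have : Finite {z : Z2 | dot z z ≤ n} := (caseA_fin n).to_subtype
  have : Finite (Set.range c) := hfin.to_subtype
  let g : Z2 → ({z : Z2 | dot z z ≤ n} → Set.range c) := fun u z => ⟨c ((z : Z2) + u), _, rfl⟩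
  obtain ⟨u, u', hne, heq⟩ := Finite.exists_ne_map_eq_of_infinite g
  refine ⟨u, u', hne, fun z hz => ?_⟩
  have := congrFun heq ⟨z, hz⟩
  exact congrArg Subtype.val this

/-- section 6, Case A -/
theorem caseA (V : List Z2) (hV : ∀ v ∈ V, v ≠ 0) {c : Z2 → ℂ} (hfin : (Set.range c).Finite)
    (hann : AnnBy V c) (h1 : ¬ Per1 c) :
    ∃ x ∈ Hull c, ∃ y ∈ Hull c, ∃ (w ν : Z2) (Λ : Finset ℂ) (q : ℕ), 0 < q ∧ HPdata (x - y) w ν Λ ∧
      PhiL Λ ∣ X ^ q - 1 := by
  choose u u' hu hc using caseA_pigeon hfin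
  obtain ⟨p, v, hv, ν, hν, hvν, hp, hhp⟩ := half_limit V hV (fun n => T (u n) c - T (u' n) c)
    (by
      intro n hn
      apply h1
      refine ⟨u n - u' n, sub_ne_zero.2 (hu n), ?_⟩
      ext z
      have h2 := congrFun hn (z - u' n)
      rw [Pi.sub_apply, T_apply, T_apply, Pi.zero_apply, sub_add_cancel] at h2
      rw [LinearMap.sub_apply, Pi.sub_apply, T_apply, Module.End.one_apply, Pi.zero_apply]
      rw [show z + (u n - u' n) = z - u' n + u n by abel]
      exact h2)
    (fun n => caseA_ann_sub (caseA_ann_T hann _) (caseA_ann_T hann _))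
    (by
      intro n z hz
      rw [Pi.sub_apply, T_apply, T_apply, hc n z hz, sub_self])
  obtain ⟨x, hxF, hx⟩ := ulim hfin (fun n z => c (z + (p n + u n))) (fun n z => ⟨_, rfl⟩)
  obtain ⟨y, hyF, hy⟩ := ulim hfin (fun n z => c (z + (p n + u' n))) (fun n z => ⟨_, rfl⟩)
  have hlim : ∀ z, ∀ᶠ n in (Filter.hyperfilter ℕ : Filter ℕ),
      (T (p n) (T (u n) c - T (u' n) c)) z = (x - y) z := by
    intro z
    filter_upwards [hx z, hy z] with n h2 h3
    rw [T_apply, Pi.sub_apply, T_apply, T_apply, Pi.sub_apply, add_assoc, add_assoc, h2, h3]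
  have hne : x - y ≠ 0 := by
    intro h
    obtain ⟨n, hn⟩ := (hlim 0).exists
    rw [h, T_apply, zero_add] at hn
    exact hp n hn
  have hHP : HP ν (x - y) := by
    refine ⟨0, fun z hz => ?_⟩
    obtain ⟨n, hn, hn2⟩ := ((hlim z).and (hhp z hz)).exists
    rw [← hn]
    exact hn2
  have hannxy : AnnBy V (x - y) := by
    unfold AnnBy
    ext z
    obtain ⟨n, hn⟩ := (caseA_lim V _ _ hlim z).exists
    rw [← hn]
    have := caseA_ann_T (caseA_ann_sub (caseA_ann_T hann (u n)) (caseA_ann_T hann (u' n))) (p n)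
    unfold AnnBy at this
    rw [this]
  have hfin2 : (Set.range (x - y)).Finite := by
    apply (Set.Finite.image2 (fun a b : ℂ => a - b) hfin hfin).subset
    rintro _ ⟨z, rfl⟩
    exact ⟨x z, hxF z, y z, hyF z, rfl⟩
  obtain ⟨w, ν', Λ, q, hq, hd, hdvd, _⟩ :=
    exists_HPdata V hV hfin2 hne hannxy hν hHP (hV v hv) hvν
  exact ⟨x, ulim_hull (fun n => p n + u n) hx, y, ulim_hull (fun n => p n + u' n) hy, w, ν', Λ, q,
    hq, hd, hdvd⟩

end Pool.Agent.MP_d2d690_an
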