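import Pool.Agent.Lib.MP_d2d690_an.Defs

/-!
# Limits along an ultrafilter, half plane limits (module HALF of project NIVAT)
-/

set_option autoImplicit false
open Polynomial

namespace Pool.Agent.MP_d2d690_an

/-! ## ULIM -/
theorem ulim {F : Set ℂ} (hF : F.Finite) (f : ℕ → Z2 → ℂ) (hf : ∀ n z, f n z ∈ F) :
    ∃ g : Z2 → ℂ, (∀ z, g z ∈ F) ∧ ∀ z, ∀ᶠ n in (Filter.hyperfilter ℕ : Filter ℕ), f n z = g z := by
  have h : ∀ z, ∃ a ∈ F, ∀ᶠ n in (Filter.hyperfilter ℕ : Filter ℕ), f n z = a := by
    intro z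
    rw [← Ultrafilter.eventually_exists_mem_iff hF]
    exact Filter.Eventually.of_forall fun n => ⟨f n z, hf n z, rfl⟩
  choose g hg1 hg2 using h
  exact ⟨g, hg1, hg2⟩

theorem ulim_hull {c g : Z2 → ℂ} (u : ℕ → Z2)
    (h : ∀ z, ∀ᶠ n in (Filter.hyperfilter ℕ : Filter ℕ), c (z + u n) = g z) : g ∈ Hull c := by
  intro S
  have h1 : ∀ᶠ n in (Filter.hyperfilter ℕ : Filter ℕ), ∀ s ∈ S, c (s + u n) = g s := by
    rw [Filter.eventually_all_finset]
    exact fun s _ => h s
  obtain ⟨n, hn⟩ := h1.exists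
  exact ⟨u n, fun s hs => (hn s hs).symm⟩

/-! ## HALF (Lemma H) -/

theorem HALF_nonvanish (ε : Z2 → Z2) (hε : ∀ v, ε v = v ∨ ε v = -v) :
    ∀ (V : List Z2) (x : Z2 → ℂ) (a : Z2), x a ≠ 0 →
      (∀ A : List Z2, A.Sublist V → A ≠ [] → x (a + (A.map ε).sum) = 0) →
      (V.map (fun v => T v - 1)).prod x ≠ 0 := by
  intro V
  induction V with
  | nil =>
    intro x a hx _ h
    simp only [List.map_nil, List.prod_nil, Module.End.one_apply] at h
    exact hx (by rw [h]; rfl)
  | cons v V ih =>
    intro x a hx hA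
    have hcomm : Commute (T v - 1) (V.map (fun v => T v - 1)).prod := by
      apply Commute.list_prod_right
      intro b hb
      obtain ⟨w, -, rfl⟩ := List.mem_map.1 hb
      have h1 : Commute (T v) (T w) := T_comm v w
      exact (h1.sub_right (Commute.one_right _)).sub_left (Commute.one_left _)
    rw [List.map_cons, List.prod_cons, hcomm.eq, Module.End.mul_apply]
    have hy : ∀ z, ((T v - 1) x) z = x (z + v) - x z := fun z => rfl
    have hA1 : ∀ A : List Z2, A.Sublist V → A ≠ [] → x (a + (A.map ε).sum) = 0 :=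
      fun A h hne => hA A (h.cons v) hne
    have hA2 : ∀ A : List Z2, A.Sublist V → x (a + (ε v + (A.map ε).sum)) = 0 := by
      intro A h
      have := hA (v :: A) (h.cons_cons v) (List.cons_ne_nil _ _)
      rwa [List.map_cons, List.sum_cons] at this
    rcases hε v with hv | hv
    · refine ih _ a ?_ ?_
      · rw [hy]
        have h1 := hA2 [] (List.nil_sublist _)
        rw [List.map_nil, List.sum_nil, add_zero, hv] at h1
        rw [h1, zero_sub]
        exact neg_ne_zero.2 hx
      · intro A h hne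
        rw [hy]
        have h1 := hA2 A h
        rw [hv] at h1
        have e1 : a + (A.map ε).sum + v = a + (v + (A.map ε).sum) := by abel
        rw [e1, h1, hA1 A h hne, sub_zero]
    · refine ih _ (a - v) ?_ ?_
      · rw [hy]
        have h1 := hA2 [] (List.nil_sublist _)
        rw [List.map_nil, List.sum_nil, add_zero, hv, ← sub_eq_add_neg] at h1
        rw [sub_add_cancel, h1, sub_zero]
        exact hx
      · intro A h hne
        rw [hy]
        have h1 := hA2 A h
        rw [hv] at h1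
        have e1 : a - v + (A.map ε).sum + v = a + (A.map ε).sum := by abel
        have e2 : a - v + (A.map ε).sum = a + (-v + (A.map ε).sum) := by abel
        rw [e1, e2, h1, hA1 A h hne, sub_zero]

/-- the norm `|v_1| + |v_2|` -/
def HALF_nm (v : Z2) : ℤ := |v.1| + |v.2|

theorem HALF_nm_add (v w : Z2) : HALF_nm (v + w) ≤ HALF_nm v + HALF_nm w := by
  unfold HALF_nm
  have h1 := abs_add_le v.1 w.1
  have h2 := abs_add_le v.2 w.2
  simp only [Prod.fst_add, Prod.snd_add]
  linarith

theorem HALF_nm_nonneg (v : Z2) : 0 ≤ HALF_nm v := by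
  unfold HALF_nm
  positivity

theorem HALF_dot_self_le (v : Z2) : dot v v ≤ HALF_nm v ^ 2 := by
  unfold dot HALF_nm
  have h1 : v.1 * v.1 = |v.1| ^ 2 := by rw [sq_abs]; ring
  have h2 : v.2 * v.2 = |v.2| ^ 2 := by rw [sq_abs]; ring
  rw [h1, h2]
  nlinarith [abs_nonneg v.1, abs_nonneg v.2]

theorem HALF_nm_sum (ε : Z2 → Z2) (hε : ∀ v, ε v = v ∨ ε v = -v) (V : List Z2) :
    ∀ A : List Z2, A.Sublist V → HALF_nm (A.map ε).sum ≤ (V.map HALF_nm).sum := by
  intro A h
  induction h with
  | slnil => simp [HALF_nm]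
  | cons v _ ih =>
    rw [List.map_cons, List.sum_cons]
    have := HALF_nm_nonneg v
    linarith
  | @cons_cons l₁ l₂ v _ ih =>
    rw [List.map_cons, List.sum_cons, List.map_cons, List.sum_cons]
    have h1 := HALF_nm_add (ε v) (List.map ε l₁).sum
    have h2 : HALF_nm (ε v) = HALF_nm v := by
      rcases hε v with h | h
      · rw [h]
      · rw [h]
        unfold HALF_nm
        simp
    linarith

theorem HALF_dot_sum (p : Z2) (ε : Z2 → Z2) (C : ℤ) (hC : 0 ≤ C) :
    ∀ A : List Z2, (∀ v ∈ A, dot p (ε v) ≤ -(C + 1)) → A ≠ [] →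
      dot p (A.map ε).sum ≤ -(C + 1) := by
  intro A
  induction A with
  | nil => intro _ h; exact absurd rfl h
  | cons v A ih =>
    intro h _
    have h1 := h v List.mem_cons_self
    have h3 : dot p ((v :: A).map ε).sum = dot p (ε v) + dot p (A.map ε).sum := by
      rw [List.map_cons, List.sum_cons]
      unfold dot
      simp only [Prod.fst_add, Prod.snd_add]
      ring
    rw [h3]
    rcases eq_or_ne A [] with rfl | hne
    · have : dot p (([] : List Z2).map ε).sum = 0 := by
        simp [dot]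
      linarith
    · have h2 := ih (fun v hv => h v (List.mem_cons_of_mem _ hv)) hne
      linarith

theorem HALF_exists_min {x : Z2 → ℂ} (hx : x ≠ 0) :
    ∃ p, x p ≠ 0 ∧ ∀ z, dot z z < dot p p → x z = 0 := by
  have hne : {z : Z2 | x z ≠ 0}.Nonempty := by
    by_contra h
    rw [Set.not_nonempty_iff_eq_empty] at h
    apply hx
    funext z
    by_contra hz
    have : z ∈ {z : Z2 | x z ≠ 0} := hz
    rw [h] at this
    exact this
  have hnn : ∀ z : Z2, 0 ≤ dot z z := fun z => by
    unfold dot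
    nlinarith [mul_self_nonneg z.1, mul_self_nonneg z.2]
  refine ⟨Function.argminOn (fun z : Z2 => (dot z z).toNat) {z | x z ≠ 0} hne,
    Function.argminOn_mem _ _ hne, ?_⟩
  intro z hz
  by_contra hxz
  have h1 := Function.not_lt_argminOn (fun z : Z2 => (dot z z).toNat) {z | x z ≠ 0}
    (a := z) hxz
  apply h1
  have h2 := hnn z
  exact (Int.toNat_lt_toNat (by linarith)).2 hz

theorem HALF_small (V : List Z2) {x : Z2 → ℂ} (hann : AnnBy V x) {p : Z2} (hp : x p ≠ 0)
    (hmin : ∀ z, dot z z < dot p p → x z = 0) :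
    ∃ v ∈ V, |dot p v| ≤ (V.map HALF_nm).sum ^ 2 := by
  by_contra hcon
  push Not at hcon
  set D := (V.map HALF_nm).sum with hD
  set ε : Z2 → Z2 := fun v => if 0 < dot p v then -v else v with hεdef
  have hε : ∀ v, ε v = v ∨ ε v = -v := by
    intro v
    simp only [hεdef]
    split_ifs
    · exact Or.inr rfl
    · exact Or.inl rfl
  have hdot : ∀ v, dot p (ε v) = -|dot p v| := by
    intro v
    simp only [hεdef]
    split_ifs with h
    · rw [abs_of_pos h]
      unfold dot
      simp only [Prod.fst_neg, Prod.snd_neg]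
      ring
    · rw [abs_of_nonpos (not_lt.1 h), neg_neg]
  refine HALF_nonvanish ε hε V x p hp ?_ hann
  intro A hA hne
  apply hmin
  have h1 : dot p (A.map ε).sum ≤ -(D ^ 2 + 1) := by
    refine HALF_dot_sum p ε (D ^ 2) (sq_nonneg D) A ?_ hne
    intro v hv
    rw [hdot]
    have := hcon v (hA.subset hv)
    omega
  have h2 := HALF_nm_sum ε hε V A hA
  have h3 := HALF_dot_self_le (A.map ε).sum
  have h4 := HALF_nm_nonneg (A.map ε).sum
  set r := (A.map ε).sum with hr
  have h5 : dot (p + r) (p + r) = dot p p + 2 * dot p r + dot r r := by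
    unfold dot
    simp only [Prod.fst_add, Prod.snd_add]
    ring
  have h6 : HALF_nm r ^ 2 ≤ D ^ 2 := by
    rw [← hD] at h2
    nlinarith
  rw [h5]
  nlinarith [sq_nonneg D]

theorem half_limit (V : List Z2) (hV : ∀ v ∈ V, v ≠ 0) (e : ℕ → Z2 → ℂ) (hne : ∀ n, e n ≠ 0)
    (hann : ∀ n, AnnBy V (e n)) (hz : ∀ n : ℕ, ∀ z : Z2, dot z z ≤ n → e n z = 0) :
    ∃ p : ℕ → Z2, ∃ v ∈ V, ∃ ν : Z2, ν ≠ 0 ∧ dot v ν = 0 ∧ (∀ n, e n (p n) ≠ 0) ∧
      ∀ z, dot z ν < 0 → ∀ᶠ n in (Filter.hyperfilter ℕ : Filter ℕ), e n (z + p n) = 0 := by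
  choose p hp hmin using fun n => HALF_exists_min (hne n)
  set C := (V.map HALF_nm).sum ^ 2 with hC
  have hsm : ∀ n, ∃ v ∈ V, |dot (p n) v| ≤ C := fun n => HALF_small V (hann n) (hp n) (hmin n)
  have hfin : {v | v ∈ V}.Finite := List.finite_toSet V
  obtain ⟨v, hvV, hv⟩ := (Ultrafilter.eventually_exists_mem_iff (f := Filter.hyperfilter ℕ) hfin
    (P := fun v n => |dot (p n) v| ≤ C)).1 (Filter.Eventually.of_forall hsm)
  have hv0 := hV v hvV
  have hvv : 1 ≤ dot v v := by
    have h1 : v.1 ≠ 0 ∨ v.2 ≠ 0 := by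
      by_contra h
      push Not at h
      exact hv0 (Prod.ext h.1 h.2)
    unfold dot
    rcases h1 with h | h
    · have := mul_self_pos.2 h
      nlinarith [mul_self_nonneg v.2]
    · have := mul_self_pos.2 h
      nlinarith [mul_self_nonneg v.1]
  -- the normal
  have hν : ∃ ν : Z2, (ν = perp v ∨ ν = -perp v) ∧
      ∀ᶠ n in (Filter.hyperfilter ℕ : Filter ℕ), 0 ≤ dot (p n) ν := by
    rcases Ultrafilter.em (Filter.hyperfilter ℕ) (fun n => 0 ≤ dot (p n) (perp v)) with h | h
    · exact ⟨perp v, Or.inl rfl, h⟩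
    · refine ⟨-perp v, Or.inr rfl, h.mono fun n hn => ?_⟩
      have h1 : dot (p n) (-perp v) = -dot (p n) (perp v) := by
        unfold dot
        simp only [Prod.fst_neg, Prod.snd_neg]
        ring
      rw [h1]
      push Not at hn
      linarith
  obtain ⟨ν, hν, hpos⟩ := hν
  have hdotv : dot v ν = 0 := by
    rcases hν with rfl | rfl
    · unfold dot perp
      ring
    · unfold dot perp
      simp only [Prod.fst_neg, Prod.snd_neg]
      ring
  have hid : ∀ a b : Z2, dot v v * dot a b = dot a v * dot b v + dot a ν * dot b ν := by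
    intro a b
    rcases hν with rfl | rfl
    · unfold dot perp
      ring
    · unfold dot perp
      simp only [Prod.fst_neg, Prod.snd_neg]
      ring
  have hν0 : ν ≠ 0 := by
    rintro rfl
    have h1 := hid v v
    have h2 : dot v (0 : Z2) = 0 := by simp [dot]
    have h3 : v = 0 := by
      rcases hν with h | h
      · unfold perp at h
        have := Prod.ext_iff.1 h
        simp only [Prod.fst_zero, Prod.snd_zero] at this
        exact Prod.ext this.2.symm (by simpa using this.1.symm)
      · unfold perp at h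
        have := Prod.ext_iff.1 h
        simp only [Prod.fst_zero, Prod.snd_zero, Prod.fst_neg, Prod.snd_neg] at this
        exact Prod.ext (by simpa using this.2.symm) (by simpa using this.1.symm)
    exact hv0 h3
  refine ⟨p, v, hvV, ν, hν0, hdotv, hp, ?_⟩
  intro z hzν
  set K := dot v v * dot z z + 2 * |dot z v| * C with hK
  have hlarge : ∀ᶠ n in (Filter.hyperfilter ℕ : Filter ℕ), (C ^ 2 + K ^ 2).toNat ≤ n :=
    (Nat.hyperfilter_le_atTop) (Filter.eventually_ge_atTop _)
  filter_upwards [hv, hpos, hlarge] with n h1 h2 h3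
  apply hmin
  have h4 : (n : ℤ) < dot (p n) (p n) := by
    by_contra hcon
    exact hp n (hz n _ (not_lt.1 hcon))
  have h5 : C ^ 2 + K ^ 2 ≤ n := by
    have := Int.toNat_le.1 h3
    exact this
  have h6 := hid (p n) (p n)
  have h7 : (dot (p n) v) ^ 2 ≤ C ^ 2 := by
    rw [← sq_abs (dot (p n) v)]
    exact pow_le_pow_left₀ (abs_nonneg _) h1 2
  have h8 : dot (p n) (p n) ≤ dot v v * dot (p n) (p n) := by nlinarith
  have h9 : K < dot (p n) ν := by
    by_contra hcon
    push Not at hcon
    have h10 : dot (p n) ν * dot (p n) ν ≤ K ^ 2 := by nlinarith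
    nlinarith
  have h11 := hid z (p n)
  have h12 : dot z v * dot (p n) v ≤ |dot z v| * C := by
    calc dot z v * dot (p n) v ≤ |dot z v * dot (p n) v| := le_abs_self _
      _ = |dot z v| * |dot (p n) v| := abs_mul _ _
      _ ≤ |dot z v| * C := mul_le_mul_of_nonneg_left h1 (abs_nonneg _)
  have h13 : dot z ν * dot (p n) ν ≤ -dot (p n) ν := by nlinarith
  have h14 : dot (z + p n) (z + p n) = dot z z + 2 * dot z (p n) + dot (p n) (p n) := by
    unfold dot
    simp only [Prod.fst_add, Prod.snd_add]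
    ring
  rw [h14]
  have h15 : dot v v * (dot z z + 2 * dot z (p n)) < 0 := by nlinarith
  have h16 : dot z z + 2 * dot z (p n) < 0 := by
    by_contra hcon
    push Not at hcon
    have := mul_nonneg (by linarith : (0 : ℤ) ≤ dot v v) hcon
    linarith
  linarith

end Pool.Agent.MP_d2d690_an
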