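import Pool.Agent.Lib.MP_d2d690_an.Defs
import Pool.Agent.Lib.MP_d2d690_an.Peel
import Pool.Agent.Lib.MP_d2d690_an.Half
import Pool.Agent.Lib.MP_d2d690_an.HPD

/-!
# Nivat's conjecture, module CASEB: configurations annihilated by two differences
-/

set_option autoImplicit false
open Polynomial

namespace Pool.Agent.MP_d2d690_an

namespace CaseB

lemma per_int {x : Z2 → ℂ} {v : Z2} (h : ∀ z, x (z + v) = x z) (m : ℤ) (z : Z2) :
    x (z + m • v) = x z := by
  induction m using Int.induction_on with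
  | zero => simp
  | succ i ih => rw [add_smul, one_smul, ← add_assoc, h, ih]
  | pred i ih =>
    rw [← ih, ← h (z + (-(i : ℤ) - 1) • v)]
    congr 1
    rw [sub_smul, one_smul]
    abel

lemma apply_eq_zero {x : Z2 → ℂ} {v : Z2} : (T v - 1) x = 0 ↔ ∀ z, x (z + v) = x z := by
  constructor
  · intro h z
    have := congrFun h z
    simpa [sub_eq_zero] using this
  · intro h
    ext z
    simp [h z]

/-- the four point identity -/
lemma grid {c : Z2 → ℂ} {v1 v2 : Z2} (h : (T v1 - 1) ((T v2 - 1) c) = 0) (k l : ℤ) (z : Z2) :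
    c (z + k • v1 + l • v2) + c z = c (z + k • v1) + c (z + l • v2) := by
  have h1 : ∀ z, (fun z => c (z + v2) - c z) (z + v1) = (fun z => c (z + v2) - c z) z := by
    intro z
    have := apply_eq_zero.mp h z
    simpa using this
  have h2 : ∀ z, (fun z => c (z + k • v1) - c z) (z + v2) = (fun z => c (z + k • v1) - c z) z := by
    intro z
    have h3 : c (z + k • v1 + v2) - c (z + k • v1) = c (z + v2) - c z :=
      per_int (x := fun z => c (z + v2) - c z) h1 k z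
    show c (z + v2 + k • v1) - c (z + v2) = c (z + k • v1) - c z
    rw [add_right_comm z v2 (k • v1)]
    linear_combination h3
  have h3 : c (z + l • v2 + k • v1) - c (z + l • v2) = c (z + k • v1) - c z :=
    per_int (x := fun z => c (z + k • v1) - c z) h2 l z
  rw [add_right_comm z (l • v2) (k • v1)] at h3
  linear_combination h3

lemma dot_self_pos {v : Z2} (hv : v ≠ 0) : 0 < dot v v := by
  unfold dot
  rcases v with ⟨a, b⟩
  simp only
  by_contra h
  apply hv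
  have ha : a = 0 := by nlinarith [mul_self_nonneg a, mul_self_nonneg b]
  have hb : b = 0 := by nlinarith [mul_self_nonneg a, mul_self_nonneg b]
  rw [ha, hb]; rfl

lemma det_ne {c : Z2 → ℂ} (hfin : (Set.range c).Finite) (h1 : ¬ Per1 c) {v1 v2 : Z2}
    (hv1 : v1 ≠ 0) (hv2 : v2 ≠ 0) (h : (T v1 - 1) ((T v2 - 1) c) = 0) : det v1 v2 ≠ 0 := by
  intro hd
  have hu : dot v1 v2 • v1 = dot v1 v1 • v2 := by
    unfold dot
    unfold det at hd
    ext
    · simp only [Prod.smul_fst, smul_eq_mul]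
      linear_combination (v1.2) * hd
    · simp only [Prod.smul_snd, smul_eq_mul]
      linear_combination (-v1.1) * hd
  have hu0 : dot v1 v1 • v2 ≠ 0 := smul_ne_zero (dot_self_pos hv1).ne' hv2
  refine h1 ⟨dot v1 v1 • v2, hu0, bdd_pow hfin _ 1 ?_⟩
  ext z
  have h3 := grid h (dot v1 v2) (dot v1 v1) z
  rw [hu] at h3
  simp only [pow_succ, pow_zero, one_mul, Module.End.mul_apply, LinearMap.sub_apply,
    Module.End.one_apply, Pi.sub_apply, T_apply, Pi.zero_apply]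
  linear_combination h3

lemma finite_ball (n : ℕ) : {z : Z2 | dot z z ≤ n}.Finite := by
  refine ((Finset.Icc (-(n : ℤ)) n) ×ˢ (Finset.Icc (-(n : ℤ)) n)).finite_toSet.subset ?_
  rintro ⟨a, b⟩ h
  simp only [dot, Set.mem_ofPred_eq] at h
  simp only [Finset.coe_product, Finset.coe_Icc, Set.mem_prod, Set.mem_Icc]
  have ha : a * a ≤ n := by nlinarith [mul_self_nonneg b]
  have hb : b * b ≤ n := by nlinarith [mul_self_nonneg a]
  refine ⟨⟨?_, ?_⟩, ?_, ?_⟩ <;> nlinarith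

lemma pigeon {c : Z2 → ℂ} (hfin : (Set.range c).Finite) (v : Z2) (n : ℕ) :
    ∃ l l' : ℤ, l ≠ l' ∧ ∀ z : Z2, dot z z ≤ n → c (z + l' • v) = c (z + l • v) := by
  have : Finite {z : Z2 | dot z z ≤ n} := finite_ball n
  have : Finite (Set.range c) := hfin
  let f : ℤ → ({z : Z2 | dot z z ≤ n} → Set.range c) := fun l z => ⟨c (z + l • v), ⟨_, rfl⟩⟩
  obtain ⟨l, l', hne, heq⟩ := Finite.exists_ne_map_eq_of_infinite f
  refine ⟨l, l', hne, fun z hz => ?_⟩
  have := congrFun heq ⟨z, hz⟩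
  exact (congrArg Subtype.val this).symm

lemma diff_ne {c : Z2 → ℂ} (h1 : ¬ Per1 c) {v : Z2} (hv : v ≠ 0) {l l' : ℤ} (hl : l ≠ l') :
    (fun z => c (z + l' • v) - c (z + l • v)) ≠ 0 := by
  intro h
  refine h1 ⟨(l' - l) • v, smul_ne_zero (sub_ne_zero.mpr hl.symm) hv, apply_eq_zero.mpr ?_⟩
  intro z
  have h2 := congrFun h (z - l • v)
  simp only [Pi.zero_apply, sub_add_cancel, sub_eq_zero] at h2
  rw [← h2]
  congr 1
  rw [sub_smul]
  abel

lemma diff_per {c : Z2 → ℂ} {v1 v2 : Z2} (h : (T v1 - 1) ((T v2 - 1) c) = 0) (l l' m : ℤ)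
    (z : Z2) : c (z + m • v1 + l' • v2) - c (z + m • v1 + l • v2) =
      c (z + l' • v2) - c (z + l • v2) := by
  linear_combination grid h m l' z - grid h m l z

lemma comm {c : Z2 → ℂ} {v1 v2 : Z2} (h : (T v1 - 1) ((T v2 - 1) c) = 0) :
    (T v2 - 1) ((T v1 - 1) c) = 0 := by
  rw [← h]
  ext z
  simp only [LinearMap.sub_apply, Module.End.one_apply, Pi.sub_apply, T_apply]
  rw [add_right_comm z v2 v1]
  ring

/-- the differences lie in finitely many classes modulo the lattice -/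
lemma residue {v1 v2 : Z2} (hd : det v1 v2 ≠ 0) : ∃ S : Finset Z2, ∀ z : Z2,
    ∃ (α β : ℤ), ∃ r ∈ S, z = α • v1 + β • v2 + r := by
  set D := det v1 v2 with hD
  refine ⟨((Finset.Ico 0 |D|) ×ˢ (Finset.Ico 0 |D|)).image
    (fun ij : ℤ × ℤ => ((ij.1 * v1.1 + ij.2 * v2.1) / D, (ij.1 * v1.2 + ij.2 * v2.2) / D)), ?_⟩
  intro z
  refine ⟨det z v2 / D, det v1 z / D, z - (det z v2 / D) • v1 - (det v1 z / D) • v2, ?_, by abel⟩
  rw [Finset.mem_image]
  refine ⟨(det z v2 % D, det v1 z % D), ?_, ?_⟩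
  · simp only [Finset.mem_product, Finset.mem_Ico]
    exact ⟨⟨Int.emod_nonneg _ hd, Int.emod_lt_abs _ hd⟩, Int.emod_nonneg _ hd,
      Int.emod_lt_abs _ hd⟩
  · have h1 := Int.emod_add_mul_ediv (det z v2) D
    have h2 := Int.emod_add_mul_ediv (det v1 z) D
    have e1 : det z v2 % D = det z v2 - D * (det z v2 / D) := by linarith
    have e2 : det v1 z % D = det v1 z - D * (det v1 z / D) := by linarith
    ext
    · simp only [Prod.fst_sub, Prod.smul_fst, smul_eq_mul]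
      refine Int.ediv_eq_of_eq_mul_right hd ?_
      rw [e1, e2]
      have : det z v2 * v1.1 + det v1 z * v2.1 = D * z.1 := by
        rw [hD]; unfold det; ring
      linear_combination this
    · simp only [Prod.snd_sub, Prod.smul_snd, smul_eq_mul]
      refine Int.ediv_eq_of_eq_mul_right hd ?_
      rw [e1, e2]
      have : det z v2 * v1.2 + det v1 z * v2.2 = D * z.2 := by
        rw [hD]; unfold det; ring
      linear_combination this

lemma det_ne_of_par {v1 v2 w1 w2 : Z2} (hd : det v1 v2 ≠ 0) (hw1 : w1 ≠ 0) (hw2 : w2 ≠ 0)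
    (h1 : det w1 v1 = 0) (h2 : det w2 v2 = 0) : det w1 w2 ≠ 0 := by
  intro h
  have h3 : det w2 v1 • w1 = 0 := by
    unfold det at h h1 ⊢
    ext
    · simp only [Prod.smul_fst, smul_eq_mul, Prod.fst_zero]
      linear_combination (-v1.1) * h + w2.1 * h1
    · simp only [Prod.smul_snd, smul_eq_mul, Prod.snd_zero]
      linear_combination (-v1.2) * h + w2.2 * h1
  have h4 : det w2 v1 = 0 := by
    rcases smul_eq_zero.mp h3 with h5 | h5
    · exact h5
    · exact absurd h5 hw1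
  have h5 : det v1 v2 • w2 = 0 := by
    unfold det at h2 h4 ⊢
    ext
    · simp only [Prod.smul_fst, smul_eq_mul, Prod.fst_zero]
      linear_combination (-v2.1) * h4 + v1.1 * h2
    · simp only [Prod.smul_snd, smul_eq_mul, Prod.snd_zero]
      linear_combination (-v2.2) * h4 + v1.2 * h2
  rcases smul_eq_zero.mp h5 with h6 | h6
  · exact hd h6
  · exact hw2 h6

lemma ne_of_prim {w : Z2} (h : IsCoprime w.1 w.2) : w ≠ 0 := by
  rintro rfl
  obtain ⟨a, b, hab⟩ := h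
  simp at hab

/-- one of the two limit differences -/
lemma limit_diff {c : Z2 → ℂ} (hfin : (Set.range c).Finite) {v1 : Z2} (hv1 : v1 ≠ 0)
    (D : ℕ → Z2 → ℂ) (hper : ∀ n (m : ℤ) z, D n (z + m • v1) = D n z) (p p1 : ℕ → Z2) (ρ : Z2)
    (hp : ∀ᶠ n in (Filter.hyperfilter ℕ : Filter ℕ), ∃ α : ℤ, p n = p1 n + α • v1 + ρ)
    {ν : Z2} (hν : ν ≠ 0) (hdν : dot v1 ν = 0) (hne : ∀ n, D n (p1 n) ≠ 0)
    (hz : ∀ z, dot z ν < 0 → ∀ᶠ n in (Filter.hyperfilter ℕ : Filter ℕ), D n (z + p1 n) = 0)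
    (x y : Z2 → ℂ) (hx : ∀ z, x z ∈ Set.range c) (hy : ∀ z, y z ∈ Set.range c)
    (hlim : ∀ z, ∀ᶠ n in (Filter.hyperfilter ℕ : Filter ℕ), (x - y) z = D n (z + p n)) :
    ∃ (w ν' : Z2) (Λ : Finset ℂ), HPdata (x - y) w ν' Λ ∧ det w v1 = 0 := by
  have E : ∀ z, ∀ᶠ n in (Filter.hyperfilter ℕ : Filter ℕ), (x - y) z = D n (z + ρ + p1 n) := by
    intro z
    filter_upwards [hlim z, hp] with n h1 h2
    obtain ⟨α, h2⟩ := h2
    rw [h1, h2, ← hper n α (z + ρ + p1 n)]
    congr 1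
    abel
  have hfin' : (Set.range (x - y)).Finite := by
    refine ((hfin.prod hfin).image (fun q : ℂ × ℂ => q.1 - q.2)).subset ?_
    rintro _ ⟨z, rfl⟩
    exact ⟨(x z, y z), ⟨hx z, hy z⟩, rfl⟩
  have hne' : x - y ≠ 0 := by
    intro h
    obtain ⟨n, hn⟩ := (E (-ρ)).exists
    rw [h] at hn
    apply hne n
    rw [← show D n (-ρ + ρ + p1 n) = D n (p1 n) by congr 1; abel, ← hn]
    rfl
  have hann : AnnBy [v1] (x - y) := by
    unfold AnnBy
    simp only [List.map_cons, List.map_nil, List.prod_cons, List.prod_nil, mul_one]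
    rw [apply_eq_zero]
    intro z
    obtain ⟨n, hn1, hn2⟩ := ((hlim (z + v1)).and (hlim z)).exists
    rw [hn1, hn2, ← hper n 1 (z + p n)]
    congr 1
    rw [one_smul]
    abel
  have hhp : HP ν (x - y) := by
    refine ⟨- dot ρ ν, fun z hz1 => ?_⟩
    have h1 : dot (z + ρ) ν < 0 := by
      unfold dot at hz1 ⊢
      simp only [Prod.fst_add, Prod.snd_add]
      linarith
    obtain ⟨n, hn1, hn2⟩ := ((E z).and (hz _ h1)).exists
    rw [hn1, hn2]
  obtain ⟨w, ν', Λ, q, -, h1, -, h2⟩ :=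
    exists_HPdata [v1] (by simpa using hv1) hfin' hne' hann hν hhp hv1 hdν
  exact ⟨w, ν', Λ, h1, h2⟩

end CaseB

open CaseB in
theorem caseB {c : Z2 → ℂ} (hfin : (Set.range c).Finite) (h1 : ¬ Per1 c) (h2 : Per2 c) :
    ∃ (x00 x10 x01 x11 e1 e2 : Z2 → ℂ) (w1 ν1 w2 ν2 : Z2) (Λ1 Λ2 : Finset ℂ),
      x00 ∈ Hull c ∧ x10 ∈ Hull c ∧ x01 ∈ Hull c ∧ x11 ∈ Hull c ∧ x10 = x00 + e1 ∧ x01 = x00 + e2 ∧
      x11 = x00 + e1 + e2 ∧ HPdata e1 w1 ν1 Λ1 ∧ HPdata e2 w2 ν2 Λ2 ∧ det w1 w2 ≠ 0 := by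
  obtain ⟨v1, v2, hv1, hv2, h⟩ := h2
  have hd : det v1 v2 ≠ 0 := det_ne hfin h1 hv1 hv2 h
  have h' := comm h
  choose l l' hl hl' using pigeon hfin v2
  choose k k' hk hk' using pigeon hfin v1
  let D1 : ℕ → Z2 → ℂ := fun n z => c (z + l' n • v2) - c (z + l n • v2)
  let D2 : ℕ → Z2 → ℂ := fun n z => c (z + k' n • v1) - c (z + k n • v1)
  have per1 : ∀ n (m : ℤ) z, D1 n (z + m • v1) = D1 n z := fun n m z => diff_per h (l n) (l' n) m z
  have per2 : ∀ n (m : ℤ) z, D2 n (z + m • v2) = D2 n z := fun n m z => diff_per h' (k n) (k' n) m z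
  obtain ⟨p1, v, hv, ν1, hν1, hd1, hp1, hz1⟩ := half_limit [v1] (by simpa using hv1) D1
    (fun n => diff_ne h1 hv2 (hl n))
    (fun n => by
      unfold AnnBy
      simp only [List.map_cons, List.map_nil, List.prod_cons, List.prod_nil, mul_one]
      rw [apply_eq_zero]
      intro z
      have := per1 n 1 z
      rwa [one_smul] at this)
    (fun n z hz => sub_eq_zero.mpr (hl' n z hz))
  have e1 : v = v1 := by simpa using hv
  rw [e1] at hd1
  obtain ⟨p2, v, hv, ν2, hν2, hd2, hp2, hz2⟩ := half_limit [v2] (by simpa using hv2) D2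
    (fun n => diff_ne h1 hv1 (hk n))
    (fun n => by
      unfold AnnBy
      simp only [List.map_cons, List.map_nil, List.prod_cons, List.prod_nil, mul_one]
      rw [apply_eq_zero]
      intro z
      have := per2 n 1 z
      rwa [one_smul] at this)
    (fun n z hz => sub_eq_zero.mpr (hk' n z hz))
  have e2 : v = v2 := by simpa using hv
  rw [e2] at hd2
  obtain ⟨S, hS⟩ := residue hd
  choose α β r hr hrz using fun n => hS (p2 n - p1 n)
  obtain ⟨ρ, hρ⟩ : ∃ ρ : Z2, ∀ᶠ n in (Filter.hyperfilter ℕ : Filter ℕ), r n = ρ := by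
    have h3 : ∀ᶠ n in (Filter.hyperfilter ℕ : Filter ℕ), ∃ a ∈ (S : Set Z2), r n = a :=
      Filter.Eventually.of_forall fun n => ⟨r n, hr n, rfl⟩
    rw [Ultrafilter.eventually_exists_mem_iff S.finite_toSet] at h3
    obtain ⟨ρ, -, hρ⟩ := h3
    exact ⟨ρ, hρ⟩
  let p : ℕ → Z2 := fun n => p2 n - β n • v2
  have hpa : ∀ᶠ n in (Filter.hyperfilter ℕ : Filter ℕ), ∃ a : ℤ, p n = p1 n + a • v1 + ρ := by
    filter_upwards [hρ] with n hn
    refine ⟨α n, ?_⟩
    have h3 := hrz n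
    rw [hn, sub_eq_iff_eq_add] at h3
    simp only [p]
    rw [h3]
    abel
  have hpb : ∀ᶠ n in (Filter.hyperfilter ℕ : Filter ℕ), ∃ a : ℤ, p n = p2 n + a • v2 + 0 :=
    Filter.Eventually.of_forall fun n => ⟨-β n, by simp only [p]; rw [neg_smul]; abel⟩
  obtain ⟨x00, m00, g00⟩ := ulim hfin (fun n z => c (z + (p n + k n • v1 + l n • v2)))
    (fun n z => ⟨_, rfl⟩)
  obtain ⟨x10, m10, g10⟩ := ulim hfin (fun n z => c (z + (p n + k n • v1 + l' n • v2)))
    (fun n z => ⟨_, rfl⟩)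
  obtain ⟨x01, m01, g01⟩ := ulim hfin (fun n z => c (z + (p n + k' n • v1 + l n • v2)))
    (fun n z => ⟨_, rfl⟩)
  obtain ⟨x11, m11, g11⟩ := ulim hfin (fun n z => c (z + (p n + k' n • v1 + l' n • v2)))
    (fun n z => ⟨_, rfl⟩)
  have E1 : ∀ z, ∀ᶠ n in (Filter.hyperfilter ℕ : Filter ℕ), (x10 - x00) z = D1 n (z + p n) := by
    intro z
    filter_upwards [g00 z, g10 z] with n h3 h4
    rw [Pi.sub_apply, ← h3, ← h4, ← per1 n (k n) (z + p n)]
    simp only [D1, add_assoc]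
  have E1' : ∀ z, ∀ᶠ n in (Filter.hyperfilter ℕ : Filter ℕ), (x11 - x01) z = D1 n (z + p n) := by
    intro z
    filter_upwards [g01 z, g11 z] with n h3 h4
    rw [Pi.sub_apply, ← h3, ← h4, ← per1 n (k' n) (z + p n)]
    simp only [D1, add_assoc]
  have E2 : ∀ z, ∀ᶠ n in (Filter.hyperfilter ℕ : Filter ℕ), (x01 - x00) z = D2 n (z + p n) := by
    intro z
    filter_upwards [g00 z, g01 z] with n h3 h4
    rw [Pi.sub_apply, ← h3, ← h4, ← per2 n (l n) (z + p n)]
    simp only [D2]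
    rw [add_right_comm (z + p n) (l n • v2) (k' n • v1),
      add_right_comm (z + p n) (l n • v2) (k n • v1)]
    simp only [add_assoc]
  obtain ⟨w1, ν1', Λ1, H1, hw1⟩ :=
    limit_diff hfin hv1 D1 per1 p p1 ρ hpa hν1 hd1 hp1 hz1 x10 x00 m10 m00 E1
  obtain ⟨w2, ν2', Λ2, H2, hw2⟩ :=
    limit_diff hfin hv2 D2 per2 p p2 0 hpb hν2 hd2 hp2 hz2 x01 x00 m01 m00 E2
  refine ⟨x00, x10, x01, x11, x10 - x00, x01 - x00, w1, ν1', w2, ν2', Λ1, Λ2,
    ulim_hull _ g00, ulim_hull _ g10, ulim_hull _ g01, ulim_hull _ g11, by abel, by abel, ?_,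
    H1, H2, det_ne_of_par hd (ne_of_prim H1.prim) (ne_of_prim H2.prim) hw1 hw2⟩
  ext z
  obtain ⟨n, h3, h4⟩ := ((E1 z).and (E1' z)).exists
  have h5 : (x11 - x01) z = (x10 - x00) z := h4.trans h3.symm
  simp only [Pi.sub_apply, Pi.add_apply] at h5 ⊢
  linear_combination h5

end Pool.Agent.MP_d2d690_an
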