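import Mathlib

/-!
# Nivat's conjecture: definitions

Configurations `ℤ × ℤ → ℂ`, shifts, polynomials in a shift, orbit closure, patterns, rectangles,
half plane configurations.
-/

set_option autoImplicit false
open Polynomial

namespace Pool.Agent.MP_d2d690_an

abbrev Z2 : Type := ℤ × ℤ

/-- shift by `w` as a linear operator on configurations -/
def T (w : Z2) : Module.End ℂ (Z2 → ℂ) where
  toFun x := fun z => x (z + w)
  map_add' _ _ := rfl
  map_smul' _ _ := rfl

/-- `f(T^w)` -/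
noncomputable def pa (f : ℂ[X]) (w : Z2) : Module.End ℂ (Z2 → ℂ) := aeval (T w) f

/-- dot product -/
def dot (a b : Z2) : ℤ := a.1 * b.1 + a.2 * b.2

/-- rotation by 90 degrees -/
def perp (w : Z2) : Z2 := (-w.2, w.1)

/-- determinant -/
def det (a b : Z2) : ℤ := a.1 * b.2 - a.2 * b.1

/-- orbit closure -/
def Hull {A : Type*} (c : Z2 → A) : Set (Z2 → A) :=
  {x | ∀ S : Finset Z2, ∃ u : Z2, ∀ s ∈ S, x s = c (s + u)}

/-- patterns on the finite set `B` -/
def Pats {A : Type*} (c : Z2 → A) (B : Finset Z2) : Set (B → A) :=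
  Set.range fun u : Z2 => fun s : B => c ((s : Z2) + u)

/-- `e` vanishes on a half plane with inner normal `ν` -/
def HP (ν : Z2) (e : Z2 → ℂ) : Prop := ∃ t : ℤ, ∀ z, dot z ν < t → e z = 0

/-- the monic polynomial with simple roots `Λ` -/
noncomputable def PhiL (Λ : Finset ℂ) : ℂ[X] := ∏ l ∈ Λ, (X - C l)

/-- `e` is a nonzero half plane configuration, with direction `w` (primitive), normal `ν = ± w^⊥`, and minimal
polynomial `PhiL Λ` in `T^w` -/
structure HPdata (e : Z2 → ℂ) (w ν : Z2) (Λ : Finset ℂ) : Prop where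
  ne : e ≠ 0
  prim : IsCoprime w.1 w.2
  nu : ν = perp w ∨ ν = -perp w
  hp : HP ν e
  zero_not_mem : (0 : ℂ) ∉ Λ
  ann : pa (PhiL Λ) w e = 0
  min : ∀ l ∈ Λ, pa (PhiL (Λ.erase l)) w e ≠ 0

/-- rectangles (possibly empty) -/
def IsRect (B : Finset Z2) : Prop := ∃ a b c d : ℤ, B = Finset.Ico a b ×ˢ Finset.Ico c d

/-- the points `z` of `B` with `z + v ∈ B` -/
def minusB (B : Finset Z2) (v : Z2) : Finset Z2 := B.filter (fun z => z + v ∈ B)

/-- annihilated by the product of the `T^v - 1`, `v ∈ V` -/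
def AnnBy (V : List Z2) (c : Z2 → ℂ) : Prop := (V.map (fun v => T v - 1)).prod c = 0

def Per1 (c : Z2 → ℂ) : Prop := ∃ v : Z2, v ≠ 0 ∧ (T v - 1) c = 0

def Per2 (c : Z2 → ℂ) : Prop := ∃ v w : Z2, v ≠ 0 ∧ w ≠ 0 ∧ (T v - 1) ((T w - 1) c) = 0

/-! ### basic facts -/

@[simp] lemma T_apply (w : Z2) (x : Z2 → ℂ) (z : Z2) : T w x z = x (z + w) := rfl

lemma T_mul (v w : Z2) : T v * T w = T (v + w) := by
  ext x z
  simp [Module.End.mul_apply, add_assoc]

lemma T_comm (v w : Z2) : T v * T w = T w * T v := by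
  rw [T_mul, T_mul, add_comm]

lemma T_zero : T 0 = 1 := by
  ext x z
  simp

lemma T_pow (w : Z2) (n : ℕ) : T w ^ n = T (n • w) := by
  induction n with
  | zero => simp [T_zero]
  | succ n ih => rw [pow_succ, ih, T_mul, succ_nsmul]

lemma pa_apply (f : ℂ[X]) (w : Z2) (x : Z2 → ℂ) (z : Z2) :
    pa f w x z = ∑ i ∈ Finset.range (f.natDegree + 1), f.coeff i * x (z + i • w) := by
  unfold pa
  rw [aeval_eq_sum_range]
  simp [LinearMap.sum_apply, Finset.sum_apply, T_pow]

lemma pa_mul (f g : ℂ[X]) (w : Z2) : pa (f * g) w = pa f w * pa g w := by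
  unfold pa; simp

lemma pa_T_comm (f : ℂ[X]) (w v : Z2) : pa f w * T v = T v * pa f w := by
  have h : Commute (T w) (T v) := T_comm w v
  unfold pa
  ext x z
  simp only [Module.End.mul_apply]
  rw [show (aeval (T w) f) (T v x) z = pa f w (T v x) z from rfl,
    show (T v) ((aeval (T w) f) x) z = pa f w x (z + v) from rfl, pa_apply, pa_apply]
  refine Finset.sum_congr rfl fun i _ => ?_
  simp [add_assoc, add_comm]

end Pool.Agent.MP_d2d690_an
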