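import Pool.Agent.Lib.MP_d2d690_an.Defs

/-!
# Nivat's conjecture: module RECT (integer geometry of rectangles)
-/

set_option autoImplicit false
open Polynomial
namespace Pool.Agent.MP_d2d690_an

theorem mem_minusB {B : Finset Z2} {v z : Z2} : z ∈ minusB B v ↔ z ∈ B ∧ z + v ∈ B := by
  simp [minusB]

theorem rect_smul_fst (d : ℕ) (w : Z2) : (d • w).1 = d * w.1 := by
  rw [Prod.smul_fst, nsmul_eq_mul]

theorem rect_smul_snd (d : ℕ) (w : Z2) : (d • w).2 = d * w.2 := by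
  rw [Prod.smul_snd, nsmul_eq_mul]

theorem rect_minus {B : Finset Z2} (hB : IsRect B) (v : Z2) : IsRect (minusB B v) := by
  obtain ⟨a, b, c, d, rfl⟩ := hB
  refine ⟨max a (a - v.1), min b (b - v.1), max c (c - v.2), min d (d - v.2), ?_⟩
  ext z
  rw [mem_minusB]
  simp only [Finset.mem_product, Finset.mem_Ico, Prod.fst_add, Prod.snd_add]
  constructor
  · rintro ⟨⟨⟨h1, h2⟩, h3, h4⟩, ⟨h5, h6⟩, h7, h8⟩
    refine ⟨⟨?_, ?_⟩, ?_, ?_⟩ <;> omega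
  · rintro ⟨⟨h1, h2⟩, h3, h4⟩
    refine ⟨⟨⟨?_, ?_⟩, ?_, ?_⟩, ⟨?_, ?_⟩, ?_, ?_⟩ <;> omega

theorem rect_conv_aux {a b x y : ℤ} {i j : ℕ} (hi : i ≤ j) (h1 : a ≤ x) (h2 : x < b)
    (h3 : a ≤ x + j * y) (h4 : x + j * y < b) : a ≤ x + i * y ∧ x + i * y < b := by
  have hij : (i : ℤ) ≤ j := by exact_mod_cast hi
  have hi0 : (0 : ℤ) ≤ i := by positivity
  rcases le_total 0 y with hy | hy
  · have e1 : (i : ℤ) * y ≤ j * y := mul_le_mul_of_nonneg_right hij hy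
    have e2 : 0 ≤ (i : ℤ) * y := mul_nonneg hi0 hy
    constructor <;> linarith
  · have e1 : (j : ℤ) * y ≤ i * y := mul_le_mul_of_nonpos_right hij hy
    have e2 : (i : ℤ) * y ≤ 0 := mul_nonpos_of_nonneg_of_nonpos hi0 hy
    constructor <;> linarith

theorem rect_conv {B : Finset Z2} (hB : IsRect B) (w z : Z2) (hz : z ∈ B) (j : ℕ) (hj : z + j • w ∈ B)
    (i : ℕ) (hi : i ≤ j) : z + i • w ∈ B := by
  obtain ⟨a, b, c, d, rfl⟩ := hB
  simp only [Finset.mem_product, Finset.mem_Ico, Prod.fst_add, Prod.snd_add, rect_smul_fst,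
    rect_smul_snd] at hz hj ⊢
  exact ⟨rect_conv_aux hi hz.1.1 hz.1.2 hj.1.1 hj.1.2, rect_conv_aux hi hz.2.1 hz.2.2 hj.2.1 hj.2.2⟩

theorem rect_minus_lt {B : Finset Z2} (hB : IsRect B) (hne : B.Nonempty) {v : Z2} (hv : v ≠ 0) :
    (minusB B v).card < B.card := by
  obtain ⟨z, hz, hmax⟩ := B.exists_max_image (fun z => dot z v) hne
  apply Finset.card_lt_card
  refine ⟨Finset.filter_subset _ _, fun h => ?_⟩
  have h1 := (mem_minusB.1 (h hz)).2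
  have h2 := hmax _ h1
  have h3 : dot (z + v) v = dot z v + (v.1 * v.1 + v.2 * v.2) := by
    simp only [dot, Prod.fst_add, Prod.snd_add]
    ring
  have h4 : 0 < v.1 * v.1 + v.2 * v.2 := by
    rcases eq_or_ne v.1 0 with h0 | h0
    · have h0' : v.2 ≠ 0 := by
        intro h'
        exact hv (Prod.ext h0 h')
      have := mul_self_pos.2 h0'
      nlinarith [mul_self_nonneg v.1]
    · have := mul_self_pos.2 h0
      nlinarith [mul_self_nonneg v.2]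
  omega

/-- one coordinate of the translation -/
theorem rect_shift {a b p r z m s : ℤ} (h0 : a ≤ z) (h0' : z < b) (h1 : a ≤ z + p) (h1' : z + p < b)
    (h2 : a ≤ z + r) (h2' : z + r < b) (h3 : a ≤ z + p + r) (h3' : z + p + r < b) (hm : m ≤ s)
    (hM : s ≤ m + |p| + |r|) :
    a ≤ z + (min 0 p + min 0 r - m) + s ∧ z + (min 0 p + min 0 r - m) + s < b := by
  rcases le_total 0 p with hp | hp <;> rcases le_total 0 r with hr | hr
  · rw [min_eq_left hp, min_eq_left hr]; rw [abs_of_nonneg hp, abs_of_nonneg hr] at hM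
    constructor <;> linarith
  · rw [min_eq_left hp, min_eq_right hr]; rw [abs_of_nonneg hp, abs_of_nonpos hr] at hM
    constructor <;> linarith
  · rw [min_eq_right hp, min_eq_left hr]; rw [abs_of_nonpos hp, abs_of_nonneg hr] at hM
    constructor <;> linarith
  · rw [min_eq_right hp, min_eq_right hr]; rw [abs_of_nonpos hp, abs_of_nonpos hr] at hM
    constructor <;> linarith

/-- the four numbers of one coordinate differ by at most `|p| + |r|` -/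
theorem rect_four {d1 d2 : ℕ} {u1 u2 δ : ℤ} {α β : ℚ} (hδ : (δ : ℚ) = α * u1 + β * u2)
    (hα : -(d1 : ℚ) ≤ α) (hα' : α ≤ 0) (hβ : 0 ≤ β) (hβ' : β ≤ d2) :
    ∃ m : ℤ, (m ≤ 0 ∧ 0 ≤ m + |d1 * u1| + |d2 * u2|) ∧
      (m ≤ d2 * u2 ∧ d2 * u2 ≤ m + |d1 * u1| + |d2 * u2|) ∧
      (m ≤ δ ∧ δ ≤ m + |d1 * u1| + |d2 * u2|) ∧
      (m ≤ δ + d1 * u1 ∧ δ + d1 * u1 ≤ m + |d1 * u1| + |d2 * u2|) := by
  have key : ∀ (x y : ℚ) (s : ℤ), |x| ≤ d1 → |y| ≤ d2 → (s : ℚ) = x * u1 + y * u2 →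
      |s| ≤ |(d1 : ℤ) * u1| + |(d2 : ℤ) * u2| := by
    intro x y s hx hy hs
    have h1 : |(s : ℚ)| ≤ |(d1 : ℚ) * u1| + |(d2 : ℚ) * u2| := by
      rw [hs]
      refine (abs_add_le _ _).trans (add_le_add ?_ ?_)
      · rw [abs_mul, abs_mul]
        refine mul_le_mul_of_nonneg_right (hx.trans ?_) (abs_nonneg _)
        exact le_abs_self _
      · rw [abs_mul, abs_mul]
        refine mul_le_mul_of_nonneg_right (hy.trans ?_) (abs_nonneg _)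
        exact le_abs_self _
    exact_mod_cast h1
  have hd1 : (0 : ℚ) ≤ d1 := by positivity
  have hd2 : (0 : ℚ) ≤ d2 := by positivity
  -- pairwise differences
  have k1 := key 0 d2 (d2 * u2) (by simp) (by simp [abs_of_nonneg hd2]) (by push_cast; ring)
  have k2 := key α β δ (abs_le.2 ⟨by linarith, by linarith⟩) (abs_le.2 ⟨by linarith, by linarith⟩) hδ
  have k3 := key (α + d1) β (δ + d1 * u1) (abs_le.2 ⟨by linarith, by linarith⟩)
    (abs_le.2 ⟨by linarith, by linarith⟩) (by push_cast; rw [hδ]; ring)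
  have k4 := key α (β - d2) (δ - d2 * u2) (abs_le.2 ⟨by linarith, by linarith⟩)
    (abs_le.2 ⟨by linarith, by linarith⟩) (by push_cast; rw [hδ]; ring)
  have k5 := key (α + d1) (β - d2) (δ + d1 * u1 - d2 * u2) (abs_le.2 ⟨by linarith, by linarith⟩)
    (abs_le.2 ⟨by linarith, by linarith⟩) (by push_cast; rw [hδ]; ring)
  have k6 := key d1 0 (d1 * u1) (by simp [abs_of_nonneg hd1]) (by simp) (by push_cast; ring)
  rw [abs_le] at k1 k2 k3 k4 k5 k6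
  refine ⟨min (min 0 (d2 * u2)) (min δ (δ + d1 * u1)), ?_⟩
  have hcases : min (min 0 ((d2 : ℤ) * u2)) (min δ (δ + d1 * u1)) = 0 ∨
      min (min 0 ((d2 : ℤ) * u2)) (min δ (δ + d1 * u1)) = d2 * u2 ∨
      min (min 0 ((d2 : ℤ) * u2)) (min δ (δ + d1 * u1)) = δ ∨
      min (min 0 ((d2 : ℤ) * u2)) (min δ (δ + d1 * u1)) = δ + d1 * u1 := by
    omega
  have l1 : min (min 0 ((d2 : ℤ) * u2)) (min δ (δ + d1 * u1)) ≤ 0 := by omega
  have l2 : min (min 0 ((d2 : ℤ) * u2)) (min δ (δ + d1 * u1)) ≤ d2 * u2 := by omega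
  have l3 : min (min 0 ((d2 : ℤ) * u2)) (min δ (δ + d1 * u1)) ≤ δ := by omega
  have l4 : min (min 0 ((d2 : ℤ) * u2)) (min δ (δ + d1 * u1)) ≤ δ + d1 * u1 := by omega
  refine ⟨⟨l1, ?_⟩, ⟨l2, ?_⟩, ⟨l3, ?_⟩, ⟨l4, ?_⟩⟩ <;> rcases hcases with h | h | h | h <;> rw [h] <;>
    linarith

/-- DELTA -/
theorem delta_count {B : Finset Z2} (hB : IsRect B) {w1 w2 : Z2} (hdet : det w1 w2 ≠ 0) {d1 d2 : ℕ}
    (hd1 : 0 < d1) (hd2 : 0 < d2) (z1 z2 : Z2) (I1 I2 : ℤ → Prop)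
    (h1 : ∀ i0 : ℤ, ∃ i, i0 < i ∧ i ≤ i0 + d1 ∧ I1 i) (h2 : ∀ i0 : ℤ, ∃ i, i0 < i ∧ i ≤ i0 + d2 ∧ I2 i) :
    ∃ i j : ℤ, I1 i ∧ I2 j ∧
      (minusB (minusB B (d1 • w1)) (d2 • w2)).card ≤
        (B.filter (fun z => z + d2 • w2 ∈ B ∧ z + ((z2 + j • w2) - (z1 + i • w1)) ∈ B ∧
          z + ((z2 + j • w2) - (z1 + i • w1)) + d1 • w1 ∈ B)).card := by
  have hD : (det w1 w2 : ℚ) ≠ 0 := by exact_mod_cast hdet
  set ξ : ℚ := (det (z2 - z1) w2 : ℚ) / det w1 w2 with hξ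
  set η : ℚ := (det w1 (z2 - z1) : ℚ) / det w1 w2 with hη
  have e1 : ((z2.1 - z1.1 : ℤ) : ℚ) = ξ * w1.1 + η * w2.1 := by
    rw [hξ, hη]
    field_simp
    simp only [det, Prod.fst_sub, Prod.snd_sub]
    push_cast
    ring
  have e2 : ((z2.2 - z1.2 : ℤ) : ℚ) = ξ * w1.2 + η * w2.2 := by
    rw [hξ, hη]
    field_simp
    simp only [det, Prod.fst_sub, Prod.snd_sub]
    push_cast
    ring
  obtain ⟨i, hi1, hi2, hI1⟩ := h1 ⌊ξ⌋
  obtain ⟨j, hj1, hj2, hI2⟩ := h2 (⌈-η⌉ - 1)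
  refine ⟨i, j, hI1, hI2, ?_⟩
  have hα : -(d1 : ℚ) ≤ ξ - i := by
    have h3 : (i : ℚ) ≤ ⌊ξ⌋ + d1 := by exact_mod_cast hi2
    have h4 := Int.floor_le ξ
    linarith
  have hα' : ξ - i ≤ 0 := by
    have h3 : ((⌊ξ⌋ + 1 : ℤ) : ℚ) ≤ i := by exact_mod_cast hi1
    have h4 := Int.lt_floor_add_one ξ
    push_cast at h3
    linarith
  have hβ : 0 ≤ η + j := by
    have h3 : ((⌈-η⌉ : ℤ) : ℚ) ≤ j := by
      have : ⌈-η⌉ ≤ j := by omega
      exact_mod_cast this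
    have h4 := Int.le_ceil (-η)
    linarith
  have hβ' : η + j ≤ d2 := by
    have h3 : (j : ℚ) ≤ ((⌈-η⌉ - 1 + d2 : ℤ) : ℚ) := by exact_mod_cast hj2
    have h4 := Int.ceil_lt_add_one (-η)
    push_cast at h3
    linarith
  set δ : Z2 := (z2 + j • w2) - (z1 + i • w1) with hδ
  have hδ1 : (δ.1 : ℚ) = (ξ - i) * w1.1 + (η + j) * w2.1 := by
    have : δ.1 = (z2.1 - z1.1) + (j * w2.1 - i * w1.1) := by
      rw [hδ]
      simp only [Prod.fst_sub, Prod.fst_add, Prod.smul_fst, smul_eq_mul]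
      ring
    rw [this]
    push_cast at e1 ⊢
    rw [e1]
    ring
  have hδ2 : (δ.2 : ℚ) = (ξ - i) * w1.2 + (η + j) * w2.2 := by
    have : δ.2 = (z2.2 - z1.2) + (j * w2.2 - i * w1.2) := by
      rw [hδ]
      simp only [Prod.snd_sub, Prod.snd_add, Prod.smul_snd, smul_eq_mul]
      ring
    rw [this]
    push_cast at e2 ⊢
    rw [e2]
    ring
  obtain ⟨m1, a0, a1, a2, a3⟩ := rect_four (d1 := d1) (d2 := d2) hδ1 hα hα' hβ hβ'
  obtain ⟨m2, b0, b1, b2, b3⟩ := rect_four (d1 := d1) (d2 := d2) hδ2 hα hα' hβ hβ'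
  obtain ⟨a, b, c, d, rfl⟩ := hB
  refine Finset.card_le_card_of_injOn
    (fun z => z + (min 0 (d1 * w1.1) + min 0 (d2 * w2.1) - m1,
      min 0 (d1 * w1.2) + min 0 (d2 * w2.2) - m2)) ?_ ?_
  · intro z hz
    have hz' := hz
    rw [Finset.mem_coe, mem_minusB, mem_minusB, mem_minusB] at hz'
    simp only [Finset.mem_product, Finset.mem_Ico, Prod.fst_add, Prod.snd_add, rect_smul_fst,
      rect_smul_snd] at hz'
    obtain ⟨⟨⟨⟨p1, p2⟩, p3, p4⟩, ⟨p5, p6⟩, p7, p8⟩, ⟨⟨p9, p10⟩, p11, p12⟩, ⟨p13, p14⟩, p15, p16⟩ := hz'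
    have X : ∀ s, m1 ≤ s → s ≤ m1 + |(d1 : ℤ) * w1.1| + |(d2 : ℤ) * w2.1| →
        a ≤ z.1 + (min 0 (d1 * w1.1) + min 0 (d2 * w2.1) - m1) + s ∧
          z.1 + (min 0 (d1 * w1.1) + min 0 (d2 * w2.1) - m1) + s < b := by
      intro s hs hs'
      exact rect_shift p1 p2 p5 p6 p9 p10 (by linarith) (by linarith) hs hs'
    have Y : ∀ s, m2 ≤ s → s ≤ m2 + |(d1 : ℤ) * w1.2| + |(d2 : ℤ) * w2.2| →
        c ≤ z.2 + (min 0 (d1 * w1.2) + min 0 (d2 * w2.2) - m2) + s ∧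
          z.2 + (min 0 (d1 * w1.2) + min 0 (d2 * w2.2) - m2) + s < d := by
      intro s hs hs'
      exact rect_shift p3 p4 p7 p8 p11 p12 (by linarith) (by linarith) hs hs'
    rw [Finset.mem_coe, Finset.mem_filter]
    simp only [Finset.mem_product, Finset.mem_Ico, Prod.fst_add, Prod.snd_add, rect_smul_fst,
      rect_smul_snd]
    have x0 := X 0 a0.1 a0.2
    have x1 := X _ a1.1 a1.2
    have x2 := X _ a2.1 a2.2
    have x3 := X _ a3.1 a3.2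
    have y0 := Y 0 b0.1 b0.2
    have y1 := Y _ b1.1 b1.2
    have y2 := Y _ b2.1 b2.2
    have y3 := Y _ b3.1 b3.2
    refine ⟨⟨⟨?_, ?_⟩, ?_, ?_⟩, ⟨⟨?_, ?_⟩, ?_, ?_⟩, ⟨⟨?_, ?_⟩, ?_, ?_⟩, ⟨?_, ?_⟩, ?_, ?_⟩ <;> linarith
  · intro z _ z' _ h
    exact add_right_cancel h

end Pool.Agent.MP_d2d690_an
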