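import Pool.Agent.Lib.MP_d2d690_an.Defs

/-!
# Module L1: the translates of a half plane configuration span the kernel
-/

set_option autoImplicit false
open Polynomial

namespace Pool.Agent.MP_d2d690_an

namespace Span

lemma dot_add (a b ν : Z2) : dot (a + b) ν = dot a ν + dot b ν := by
  simp only [dot, Prod.fst_add, Prod.snd_add]; ring

lemma dot_zsmul (n : ℤ) (a ν : Z2) : dot (n • a) ν = n * dot a ν := by
  simp only [dot, Prod.smul_fst, Prod.smul_snd, smul_eq_mul]; ring

lemma dot_nsmul (n : ℕ) (a ν : Z2) : dot (n • a) ν = n * dot a ν := by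
  rw [← natCast_zsmul, dot_zsmul]

/-- coordinates adapted to a primitive direction -/
lemma coords {w ν : Z2} (hp : IsCoprime w.1 w.2) (hν : ν = perp w ∨ ν = -perp w) :
    ∃ (κ : Z2 → ℤ) (μ : Z2), (∀ a b, κ (a + b) = κ a + κ b) ∧ κ w = 1 ∧ κ μ = 0 ∧ dot μ ν = 1 ∧
      dot w ν = 0 ∧ ∀ z, z = dot z ν • μ + κ z • w := by
  obtain ⟨u, v, huv⟩ := hp
  rcases hν with rfl | rfl
  · refine ⟨fun z => u * z.1 + v * z.2, (-v, u), ?_, huv, ?_, ?_, ?_, ?_⟩
    · intro a b; simp only [Prod.fst_add, Prod.snd_add]; ring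
    · simp only; ring
    · simp only [dot, perp]; linear_combination huv
    · simp only [dot, perp]; ring
    · intro z
      ext
      · simp only [dot, perp, Prod.fst_add, Prod.smul_fst, smul_eq_mul]
        linear_combination (-z.1) * huv
      · simp only [dot, perp, Prod.snd_add, Prod.smul_snd, smul_eq_mul]
        linear_combination (-z.2) * huv
  · refine ⟨fun z => u * z.1 + v * z.2, (v, -u), ?_, huv, ?_, ?_, ?_, ?_⟩
    · intro a b; simp only [Prod.fst_add, Prod.snd_add]; ring
    · simp only; ring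
    · simp only [dot, perp, Prod.fst_neg, Prod.snd_neg]; linear_combination huv
    · simp only [dot, perp, Prod.fst_neg, Prod.snd_neg]; ring
    · intro z
      ext
      · simp only [dot, perp, Prod.fst_add, Prod.smul_fst, smul_eq_mul, Prod.fst_neg, Prod.snd_neg]
        linear_combination (-z.1) * huv
      · simp only [dot, perp, Prod.snd_add, Prod.smul_snd, smul_eq_mul, Prod.fst_neg, Prod.snd_neg]
        linear_combination (-z.2) * huv

lemma kappa_zsmul {κ : Z2 → ℤ} (hκ : ∀ a b, κ (a + b) = κ a + κ b) (n : ℤ) (a : Z2) :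
    κ (n • a) = n * κ a := by
  let K : Z2 →+ ℤ := AddMonoidHom.mk' κ hκ
  have : K (n • a) = n • K a := map_zsmul K n a
  simpa [K] using this

lemma kappa_nsmul {κ : Z2 → ℤ} (hκ : ∀ a b, κ (a + b) = κ a + κ b) (n : ℕ) (a : Z2) :
    κ (n • a) = n * κ a := by
  rw [← natCast_zsmul, kappa_zsmul hκ]

/-- `f(T^w)` preserves vanishing on half planes parallel to `w` -/
lemma pa_vanish {f : ℂ[X]} {w ν : Z2} (hw : dot w ν = 0) {e : Z2 → ℂ} {t : ℤ}
    (h : ∀ z, dot z ν < t → e z = 0) (z : Z2) (hz : dot z ν < t) : pa f w e z = 0 := by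
  rw [pa_apply]
  refine Finset.sum_eq_zero fun i _ => ?_
  rw [h, mul_zero]
  rw [dot_add, dot_nsmul, hw]
  simpa using hz

lemma eig {e : Z2 → ℂ} {w : Z2} {Λ : Finset ℂ} (h : pa (PhiL Λ) w e = 0) {l : ℂ} (hl : l ∈ Λ)
    (z : Z2) : pa (PhiL (Λ.erase l)) w e (z + w) = l * pa (PhiL (Λ.erase l)) w e z := by
  have h1 : PhiL Λ = (X - C l) * PhiL (Λ.erase l) := by
    unfold PhiL
    rw [Finset.mul_prod_erase Λ (fun l => X - C l) hl]
  rw [h1, pa_mul] at h
  have h2 := congrFun h z
  have h3 : pa (X - C l) w = T w - algebraMap ℂ _ l := by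
    unfold pa; simp
  rw [h3] at h2
  simp only [Module.End.mul_apply, LinearMap.sub_apply, Pi.sub_apply, T_apply,
    Module.algebraMap_end_apply, Pi.smul_apply, smul_eq_mul, Pi.zero_apply] at h2
  linear_combination h2

lemma eig_zpow {x : Z2 → ℂ} {w : Z2} {l : ℂ} (hl : l ≠ 0) (h : ∀ z, x (z + w) = l * x z) (z : Z2)
    (n : ℤ) : x (z + n • w) = l ^ n * x z := by
  have h0 : ∀ (n : ℕ) (z : Z2), x (z + n • w) = l ^ n * x z := by
    intro n
    induction n with
    | zero => intro z; simp
    | succ n ih =>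
      intro z
      rw [succ_nsmul, ← add_assoc, h, ih, pow_succ]
      ring
  cases n with
  | ofNat n => simpa using h0 n z
  | negSucc n =>
    have h1 := h0 (n + 1) (z + Int.negSucc n • w)
    rw [negSucc_zsmul, neg_add_cancel_right] at h1
    rw [negSucc_zsmul, h1, zpow_negSucc, ← mul_assoc, inv_mul_cancel₀ (pow_ne_zero _ hl), one_mul]

/-- a nonzero function on `ℤ` vanishing for small arguments has a first nonzero value -/
lemma exists_first {E : ℤ → ℂ} {t : ℤ} (ht : ∀ n, n < t → E n = 0) (hne : ∃ n, E n ≠ 0) :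
    ∃ n0, E n0 ≠ 0 ∧ ∀ n, n < n0 → E n = 0 := by
  obtain ⟨n, hn⟩ := hne
  have hex : ∃ k : ℕ, E (t + k) ≠ 0 := by
    refine ⟨(n - t).toNat, ?_⟩
    have : t ≤ n := by
      by_contra h
      exact hn (ht n (by omega))
    rw [show t + ((n - t).toNat : ℤ) = n by omega]
    exact hn
  classical
  refine ⟨t + (Nat.find hex : ℤ), Nat.find_spec hex, fun m hm => ?_⟩
  by_contra h
  have h1 : t ≤ m := by
    by_contra h'
    exact h (ht m (by omega))
  have h2 : (m - t).toNat < Nat.find hex := by omega
  refine Nat.find_min hex h2 ?_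
  rw [show t + ((m - t).toNat : ℤ) = m by omega]
  exact h

/-- the convolution argument -/
lemma conv_zero {S : Finset ℤ} {G E : ℤ → ℂ} {t : ℤ} (ht : ∀ n, n < t → E n = 0)
    (hne : ∃ n, E n ≠ 0) (h : ∀ m : ℤ, ∑ n ∈ S, G n * E (n + m) = 0) : ∀ n ∈ S, G n = 0 := by
  classical
  obtain ⟨n0, hn0, hmin⟩ := exists_first ht hne
  by_contra hcon
  push Not at hcon
  obtain ⟨n1, hn1, hG1⟩ := hcon
  have hne' : (S.filter fun n => G n ≠ 0).Nonempty := ⟨n1, Finset.mem_filter.2 ⟨hn1, hG1⟩⟩
  obtain ⟨ns, hns, hmax⟩ := Finset.exists_max_image (S.filter fun n => G n ≠ 0) id hne'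
  rw [Finset.mem_filter] at hns
  have h1 := h (n0 - ns)
  rw [Finset.sum_eq_single ns] at h1
  · rw [show ns + (n0 - ns) = n0 by ring] at h1
    rcases mul_eq_zero.1 h1 with h2 | h2
    · exact hns.2 h2
    · exact hn0 h2
  · intro n hn hne2
    by_cases hG : G n = 0
    · rw [hG, zero_mul]
    · have := hmax n (Finset.mem_filter.2 ⟨hn, hG⟩)
      simp only [id] at this
      rw [hmin (n + (n0 - ns)) (by omega), mul_zero]
  · intro h2
    exact absurd hns.1 h2

theorem core {e : Z2 → ℂ} {w ν : Z2} {Λ : Finset ℂ} (h : HPdata e w ν Λ) (B : Finset Z2)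
    (hB : ∀ z ∈ B, ∀ j : ℕ, z + j • w ∈ B → ∀ i : ℕ, i ≤ j → z + i • w ∈ B) (g : Z2 → ℂ)
    (hgB : ∀ z, z ∉ B → g z = 0) (hg : ∀ s : Z2, ∑ b ∈ B, g b * e (b + s) = 0)
    (h0 : ∀ z ∈ B, z + Λ.card • w ∈ B → g z = 0) : ∀ z, g z = 0 := by
  classical
  obtain ⟨κ, μ, hκ, hκw, hκμ, hμν, hwν, hz⟩ := coords h.prim h.nu
  obtain ⟨t, ht⟩ := h.hp
  -- the line sums
  have key : ∀ l ∈ Λ, ∀ n : ℤ, ∑ b ∈ B.filter (fun b => dot b ν = n), g b * l ^ κ b = 0 := by
    intro l hl n
    have hl0 : l ≠ 0 := fun h' => h.zero_not_mem (h' ▸ hl)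
    set el := pa (PhiL (Λ.erase l)) w e with hel
    have hshift := eig_zpow hl0 (eig h.ann hl)
    rw [← hel] at hshift
    have hel0 : ∀ z, dot z ν < t → el z = 0 := fun z hz => pa_vanish hwν ht z hz
    have hform : ∀ z, el z = l ^ κ z * el (dot z ν • μ) := by
      intro z
      conv_lhs => rw [hz z]
      exact hshift _ _
    have hsum : ∀ s : Z2, ∑ b ∈ B, g b * el (b + s) = 0 := by
      intro s
      have : ∀ b ∈ B, g b * el (b + s) = ∑ i ∈ Finset.range ((PhiL (Λ.erase l)).natDegree + 1),
          (PhiL (Λ.erase l)).coeff i * (g b * e (b + (s + i • w))) := by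
        intro b _
        rw [hel, pa_apply, Finset.mul_sum]
        refine Finset.sum_congr rfl fun i _ => ?_
        rw [add_assoc]; ring
      rw [Finset.sum_congr rfl this, Finset.sum_comm]
      refine Finset.sum_eq_zero fun i _ => ?_
      rw [← Finset.mul_sum, hg, mul_zero]
    have hconv := conv_zero (S := B.image fun b => dot b ν)
      (G := fun n => ∑ b ∈ B.filter (fun b => dot b ν = n), g b * l ^ κ b)
      (E := fun n => el (n • μ)) (t := t)
      (by
        intro n hn
        apply hel0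
        rw [dot_zsmul, hμν, mul_one]
        exact hn)
      (by
        by_contra hcon
        push Not at hcon
        apply h.min l hl
        funext z
        have := hform z
        rw [hcon, mul_zero] at this
        simpa using this)
      (by
        intro m
        have h1 := hsum (m • μ)
        rw [← Finset.sum_fiberwise_of_maps_to (s := B) (t := B.image fun b => dot b ν)
          (g := fun b => dot b ν) (fun b hb => Finset.mem_image_of_mem _ hb)] at h1
        rw [← h1]
        refine Finset.sum_congr rfl fun n _ => ?_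
        rw [Finset.sum_mul]
        refine Finset.sum_congr rfl fun b hb => ?_
        rw [Finset.mem_filter] at hb
        rw [hform (b + m • μ), hκ, kappa_zsmul hκ, hκμ, mul_zero, add_zero, dot_add, dot_zsmul, hμν,
          mul_one, hb.2]
        ring)
    by_cases hn : n ∈ B.image fun b => dot b ν
    · exact hconv n hn
    · refine Finset.sum_eq_zero fun b hb => ?_
      rw [Finset.mem_filter] at hb
      exact absurd (Finset.mem_image.2 ⟨b, hb.1, hb.2⟩) hn
  -- conclusion
  by_contra hcon
  push Not at hcon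
  obtain ⟨z1, hz1⟩ := hcon
  have hz1B : z1 ∈ B := by
    by_contra h'
    exact hz1 (hgB z1 h')
  set n := dot z1 ν with hn
  obtain ⟨b0, hb0, hmin⟩ := Finset.exists_min_image
    (B.filter fun b => dot b ν = n ∧ g b ≠ 0) κ ⟨z1, Finset.mem_filter.2 ⟨hz1B, rfl, hz1⟩⟩
  rw [Finset.mem_filter] at hb0
  obtain ⟨hb0B, hb0n, hgb0⟩ := hb0
  -- points on the same line
  have hline : ∀ b, dot b ν = n → b = b0 + (κ b - κ b0) • w := by
    intro b hb
    have e1 := hz b
    have e2 := hz b0
    rw [hb] at e1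
    rw [hb0n] at e2
    calc b = n • μ + κ b • w := e1
      _ = (n • μ + κ b0 • w) + (κ b - κ b0) • w := by rw [sub_smul]; abel
      _ = b0 + (κ b - κ b0) • w := by rw [← e2]
  have hdn : ∀ i : ℕ, dot (b0 + i • w) ν = n := by
    intro i
    rw [dot_add, dot_nsmul, hwν, mul_zero, add_zero, hb0n]
  have hκi : ∀ i : ℕ, κ (b0 + i • w) = κ b0 + i := by
    intro i
    rw [hκ, kappa_nsmul hκ, hκw, mul_one]
  have hrange : ∀ b ∈ B, dot b ν = n → g b ≠ 0 → ∃ i : ℕ, i < Λ.card ∧ b = b0 + i • w := by
    intro b hb hbn hgb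
    have h1 := hmin b (Finset.mem_filter.2 ⟨hb, hbn, hgb⟩)
    have h2 : b = b0 + (κ b - κ b0).toNat • w := by
      rw [← natCast_zsmul, Int.toNat_of_nonneg (by omega)]
      exact hline b hbn
    refine ⟨(κ b - κ b0).toNat, ?_, h2⟩
    by_contra h3
    push Not at h3
    apply hgb0
    apply h0 b0 hb0B
    exact hB b0 hb0B (κ b - κ b0).toNat (h2 ▸ hb) _ h3
  set p : ℂ[X] := ∑ i ∈ Finset.range Λ.card, C (g (b0 + i • w)) * X ^ i with hp
  have hcoeff : ∀ k : ℕ, p.coeff k = if k < Λ.card then g (b0 + k • w) else 0 := by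
    intro k
    rw [hp, finsetSum_coeff]
    simp only [coeff_C_mul, coeff_X_pow]
    by_cases hk : k < Λ.card
    · rw [if_pos hk, Finset.sum_eq_single k]
      · simp
      · intro b _ hb; rw [if_neg (Ne.symm hb), mul_zero]
      · intro h'; exact absurd (Finset.mem_range.2 hk) h'
    · rw [if_neg hk]
      refine Finset.sum_eq_zero fun i hi => ?_
      rw [Finset.mem_range] at hi
      rw [if_neg (by omega), mul_zero]
  have hp0 : p = 0 := by
    refine Polynomial.eq_zero_of_degree_lt_of_eval_finset_eq_zero Λ ?_ ?_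
    · rw [Polynomial.degree_lt_iff_coeff_zero]
      intro m hm
      rw [hcoeff, if_neg (by omega)]
    · intro l hl
      have hl0 : l ≠ 0 := fun h' => h.zero_not_mem (h' ▸ hl)
      have h1 := key l hl n
      have h2 : ∑ b ∈ B.filter (fun b => dot b ν = n), g b * l ^ κ b =
          ∑ b ∈ (Finset.range Λ.card).image (fun i : ℕ => b0 + i • w), g b * l ^ κ b := by
        rw [← Finset.sum_filter_ne_zero, ← Finset.sum_filter_ne_zero (s := Finset.image _ _)]
        congr 1
        ext b
        simp only [Finset.mem_filter, Finset.mem_image, Finset.mem_range]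
        constructor
        · rintro ⟨⟨hbB, hbn⟩, hne⟩
          have hgb : g b ≠ 0 := fun h' => hne (by rw [h', zero_mul])
          obtain ⟨i, hi, rfl⟩ := hrange b hbB hbn hgb
          exact ⟨⟨i, hi, rfl⟩, hne⟩
        · rintro ⟨⟨i, hi, rfl⟩, hne⟩
          have hgb : g (b0 + i • w) ≠ 0 := fun h' => hne (by rw [h', zero_mul])
          refine ⟨⟨?_, hdn i⟩, hne⟩
          by_contra h'
          exact hgb (hgB _ h')
      rw [h2, Finset.sum_image] at h1
      · have h3 : ∑ i ∈ Finset.range Λ.card, g (b0 + i • w) * l ^ κ (b0 + i • w) =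
            l ^ κ b0 * p.eval l := by
          rw [hp, eval_finsetSum, Finset.mul_sum]
          refine Finset.sum_congr rfl fun i _ => ?_
          rw [hκi, zpow_add₀ hl0]
          simp only [eval_mul, eval_C, eval_pow, eval_X, zpow_natCast]
          ring
        rw [h3] at h1
        rcases mul_eq_zero.1 h1 with h4 | h4
        · exact absurd h4 (zpow_ne_zero _ hl0)
        · exact h4
      · intro i _ j _ hij
        have := congrArg κ hij
        simp only [hκi] at this
        omega
  have hpos : 0 < Λ.card := by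
    rw [Finset.card_pos, Finset.nonempty_iff_ne_empty]
    rintro rfl
    apply h.ne
    have := h.ann
    simpa [PhiL, pa] using this
  have h4 := hcoeff 0
  rw [hp0, if_pos hpos] at h4
  apply hgb0
  simpa using h4.symm

end Span

theorem span_translates {e : Z2 → ℂ} {w ν : Z2} {Λ : Finset ℂ} (h : HPdata e w ν Λ) (B : Finset Z2)
    (hB : ∀ z ∈ B, ∀ j : ℕ, z + j • w ∈ B → ∀ i : ℕ, i ≤ j → z + i • w ∈ B) :
    B.card ≤ (minusB B (Λ.card • w)).card +
      Module.finrank ℂ (Submodule.span ℂ (Set.range fun s : Z2 => fun b : B => e ((b : Z2) + s))) := by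
  classical
  set W := Submodule.span ℂ (Set.range fun s : Z2 => fun b : B => e ((b : Z2) + s)) with hW
  have h1 : Module.finrank ℂ W + Module.finrank ℂ W.dualAnnihilator = B.card := by
    rw [Subspace.finrank_add_finrank_dualAnnihilator_eq, Module.finrank_fintype_fun_eq_card,
      Fintype.card_coe]
  have h2 : Module.finrank ℂ W.dualAnnihilator ≤ (minusB B (Λ.card • w)).card := by
    have hmem : ∀ z : minusB B (Λ.card • w), (z : Z2) ∈ B := fun z =>
      (Finset.mem_filter.1 z.2).1
    let R : W.dualAnnihilator →ₗ[ℂ] (minusB B (Λ.card • w) → ℂ) :=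
      { toFun := fun φ z => (φ : Module.Dual ℂ (B → ℂ)) (Pi.single ⟨z, hmem z⟩ 1)
        map_add' := fun _ _ => rfl
        map_smul' := fun _ _ => rfl }
    have hinj : Function.Injective R := by
      rw [← LinearMap.ker_eq_bot, LinearMap.ker_eq_bot']
      intro φ hφ
      set g : Z2 → ℂ := fun z =>
        if hz : z ∈ B then (φ : Module.Dual ℂ (B → ℂ)) (Pi.single ⟨z, hz⟩ 1) else 0 with hg
      have hexp : ∀ f : B → ℂ, (φ : Module.Dual ℂ (B → ℂ)) f = ∑ b : B, g b * f b := by
        intro f
        conv_lhs => rw [LinearMap.pi_apply_eq_sum_univ (φ : Module.Dual ℂ (B → ℂ)) f]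
        refine Finset.sum_congr rfl fun b _ => ?_
        simp only [hg, b.2, dif_pos, smul_eq_mul]
        rw [mul_comm]
        congr 2
        funext c
        simp [Pi.single_apply, eq_comm]
      have hz : ∀ z, g z = 0 := by
        refine Span.core h B hB g (fun z hz => by simp [hg, hz]) ?_ ?_
        · intro s
          have h3 : (φ : Module.Dual ℂ (B → ℂ)) (fun b : B => e ((b : Z2) + s)) = 0 :=
            (Submodule.mem_dualAnnihilator (φ : Module.Dual ℂ (B → ℂ))).1 φ.2 _
              (Submodule.subset_span ⟨s, rfl⟩)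
          rw [hexp] at h3
          rw [← Finset.sum_coe_sort]
          exact h3
        · intro z hzB hz'
          have h3 := congrFun hφ ⟨z, Finset.mem_filter.2 ⟨hzB, hz'⟩⟩
          simp only [hg, hzB, dif_pos]
          exact h3
      apply Subtype.ext
      apply LinearMap.ext
      intro f
      rw [hexp]
      simp [hz]
    calc Module.finrank ℂ W.dualAnnihilator
        ≤ Module.finrank ℂ (minusB B (Λ.card • w) → ℂ) :=
          LinearMap.finrank_le_finrank_of_injective hinj
      _ = (minusB B (Λ.card • w)).card := by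
          rw [Module.finrank_fintype_fun_eq_card, Fintype.card_coe]
  omega

end Pool.Agent.MP_d2d690_an
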