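import Pool.Agent.Lib.MP_d2d690_an.LinAlg
import Pool.Agent.Lib.MP_d2d690_an.Rect
import Pool.Agent.Lib.MP_d2d690_an.Span

/-!
# The fibre inequality (module FIBRE of the project NIVAT)
-/

set_option autoImplicit false
open Polynomial

namespace Pool.Agent.MP_d2d690_an

theorem FIBRE_natDegree (Λ : Finset ℂ) : (PhiL Λ).natDegree = Λ.card := by
  unfold PhiL
  exact natDegree_finsetProd_X_sub_C_eq_card Λ (fun l => l)

/-- extend by zero, apply `Φ(T^w)`, restrict -/
noncomputable def FIBRE_pi (f : ℂ[X]) (w : Z2) (B B' : Finset Z2) : (B → ℂ) →ₗ[ℂ] (B' → ℂ) :=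
  (LinearMap.funLeft ℂ ℂ (Subtype.val : B' → Z2)) ∘ₗ (pa f w) ∘ₗ
    (Function.ExtendByZero.linearMap ℂ (Subtype.val : B → Z2))

theorem FIBRE_pi_apply (Λ : Finset ℂ) (w : Z2) {B : Finset Z2} (hB : IsRect B) (x : Z2 → ℂ)
    (s : Z2) (z : minusB B (Λ.card • w)) :
    FIBRE_pi (PhiL Λ) w B (minusB B (Λ.card • w)) (fun b : B => x ((b : Z2) + s)) z =
      pa (PhiL Λ) w x ((z : Z2) + s) := by
  unfold FIBRE_pi
  rw [LinearMap.comp_apply, LinearMap.comp_apply, LinearMap.funLeft_apply, pa_apply, pa_apply]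
  refine Finset.sum_congr rfl fun i hi => ?_
  congr 1
  have hz := z.2
  unfold minusB at hz
  rw [Finset.mem_filter] at hz
  have hi' : i ≤ Λ.card := by
    rw [FIBRE_natDegree, Finset.mem_range] at hi
    omega
  have hmem : (z : Z2) + i • w ∈ B := rect_conv hB w z hz.1 Λ.card hz.2 i hi'
  have h1 := Function.Injective.extend_apply (Subtype.val_injective (p := (· ∈ B)))
    (fun b : B => x ((b : Z2) + s)) (0 : Z2 → ℂ) ⟨(z : Z2) + i • w, hmem⟩
  change Function.extend (Subtype.val : B → Z2) (fun b : B => x ((b : Z2) + s)) 0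
    ((z : Z2) + i • w) = _
  rw [h1]
  congr 1
  change (z : Z2) + i • w + s = (z : Z2) + s + i • w
  abel

theorem FIBRE_mem {c x : Z2 → ℂ} (hx : x ∈ Hull c) (B : Finset Z2) (s : Z2) :
    (fun b : B => x ((b : Z2) + s)) ∈ Pats c B := by
  classical
  obtain ⟨u, hu⟩ := hx (B.image (· + s))
  refine ⟨s + u, ?_⟩
  funext b
  have h := hu ((b : Z2) + s) (Finset.mem_image_of_mem _ b.2)
  rw [h]
  change c ((b : Z2) + (s + u)) = _
  rw [add_assoc]

theorem FIBRE_finite {c : Z2 → ℂ} (hc : (Set.range c).Finite) (B : Finset Z2) :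
    (Pats c B).Finite := by
  refine Set.Finite.subset (Set.Finite.pi' (fun _ : B => hc)) ?_
  rintro _ ⟨u, rfl⟩ b
  exact ⟨_, rfl⟩

theorem fibre {c x y : Z2 → ℂ} {w ν : Z2} {Λ : Finset ℂ} (hc : (Set.range c).Finite) (hx : x ∈ Hull c)
    (hy : y ∈ Hull c) (h : HPdata (x - y) w ν Λ) {B : Finset Z2} (hB : IsRect B) :
    (Pats (pa (PhiL Λ) w c) (minusB B (Λ.card • w))).ncard + B.card ≤
      (Pats c B).ncard + (minusB B (Λ.card • w)).card := by
  set B' : Finset Z2 := minusB B (Λ.card • w) with hB'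
  have h1 := linR (Pats c B) (FIBRE_finite hc B) (FIBRE_pi (PhiL Λ) w B B')
  have h2 : FIBRE_pi (PhiL Λ) w B B' '' Pats c B = Pats (pa (PhiL Λ) w c) B' := by
    unfold Pats
    rw [← Set.range_comp]
    congr 1
    funext u z
    exact FIBRE_pi_apply Λ w hB c u z
  rw [h2] at h1
  have h3 : Submodule.span ℂ (Set.range fun s : Z2 => fun b : B => (x - y) ((b : Z2) + s)) ≤
      Submodule.span ℂ {d | ∃ p ∈ Pats c B, ∃ q ∈ Pats c B,
        FIBRE_pi (PhiL Λ) w B B' p = FIBRE_pi (PhiL Λ) w B B' q ∧ d = p - q} := by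
    refine Submodule.span_mono ?_
    rintro _ ⟨s, rfl⟩
    refine ⟨_, FIBRE_mem hx B s, _, FIBRE_mem hy B s, ?_, rfl⟩
    funext z
    rw [FIBRE_pi_apply Λ w hB x s z, FIBRE_pi_apply Λ w hB y s z]
    have h4 : pa (PhiL Λ) w x - pa (PhiL Λ) w y = 0 := by
      rw [← map_sub]
      exact h.ann
    have h5 := congrFun h4 ((z : Z2) + s)
    exact sub_eq_zero.1 h5
  have h4 := Submodule.finrank_mono h3
  have h5 := span_translates h B
    (fun z hz j hj i hi => rect_conv hB w z hz j hj i hi)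
  rw [← hB'] at h5
  omega

end Pool.Agent.MP_d2d690_an
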