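import Pool.Agent.Lib.MP_d2d690_an.Main
import Pool.Agent.Lib.MP_d2d690_an.Annih

/-!
# Nivat's conjecture and the frozen statement
-/

set_option autoImplicit false
open Polynomial
namespace Pool.Agent.MP_d2d690_an

lemma ncard_pats_comp {A B' : Type*} (g : A → B') (hg : Function.Injective g) (c : Z2 → A) (B : Finset Z2) :
    (Pats (fun z => g (c z)) B).ncard = (Pats c B).ncard := by
  have : Pats (fun z => g (c z)) B = (fun p : B → A => fun s => g (p s)) '' Pats c B := by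
    unfold Pats
    rw [← Set.range_comp]
    rfl
  rw [this]
  apply Set.ncard_image_of_injective
  intro p q h
  funext s
  exact hg (congrFun h s)

theorem nivat {m : ℕ} (η : Z2 → Fin m) {n k : ℕ} (hn : 0 < n) (hk : 0 < k)
    (hP : (Pats η (Finset.Ico (0:ℤ) n ×ˢ Finset.Ico (0:ℤ) k)).ncard ≤ n * k) :
    ∃ v : Z2, v ≠ 0 ∧ ∀ z, η (z + v) = η z := by
  classical
  set B : Finset Z2 := Finset.Ico (0:ℤ) n ×ˢ Finset.Ico (0:ℤ) k with hBdef
  have hcard : B.card = n * k := by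
    rw [hBdef, Finset.card_product]
    simp
  have hBne : B.Nonempty := by
    rw [← Finset.card_pos, hcard]
    positivity
  have hinj1 : Function.Injective (fun a : Fin m => ((a : ℕ) : ℤ)) := by
    intro a b h
    have h' : ((a : ℕ) : ℤ) = ((b : ℕ) : ℤ) := h
    exact Fin.ext (by exact_mod_cast h')
  have hinj2 : Function.Injective (fun a : ℤ => (a : ℂ)) := Int.cast_injective
  set c : Z2 → ℤ := fun z => ((η z : ℕ) : ℤ) with hc
  have hfin : (Set.range c).Finite := by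
    have : Set.range c ⊆ Set.range (fun a : Fin m => ((a : ℕ) : ℤ)) := by
      rintro _ ⟨z, rfl⟩
      exact ⟨η z, rfl⟩
    exact (Set.finite_range _).subset this
  have hPc : (Pats c B).ncard ≤ B.card := by
    rw [hcard]
    have := ncard_pats_comp (fun a : Fin m => ((a : ℕ) : ℤ)) hinj1 η B
    rw [show Pats c B = Pats (fun z => (fun a : Fin m => ((a : ℕ) : ℤ)) (η z)) B from rfl, this]
    exact hP
  obtain ⟨V, hV, hann⟩ := exists_ann hfin hBne hPc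
  have hfin2 : (Set.range (fun z => (c z : ℂ))).Finite := by
    have : Set.range (fun z => (c z : ℂ)) ⊆ (fun a : ℤ => (a : ℂ)) '' Set.range c := by
      rintro _ ⟨z, rfl⟩
      exact ⟨c z, ⟨z, rfl⟩, rfl⟩
    exact (hfin.image _).subset this
  by_cases h1 : Per1 (fun z => (c z : ℂ))
  · obtain ⟨v, hv, h⟩ := h1
    refine ⟨v, hv, fun z => ?_⟩
    have h2 := congrFun h z
    simp only [LinearMap.sub_apply, Module.End.one_apply, Pi.sub_apply, T_apply, Pi.zero_apply] at h2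
    have h3 : (c (z + v) : ℂ) = (c z : ℂ) := sub_eq_zero.1 h2
    exact hinj1 (hinj2 h3)
  · exfalso
    have h3 := main_lower V hV B.card B ⟨0, n, 0, k, rfl⟩ le_rfl _ hfin2 hann h1
    have h4 := ncard_pats_comp (fun a : ℤ => (a : ℂ)) hinj2 c B
    rw [show Pats (fun z => (c z : ℂ)) B = Pats (fun z => (fun a : ℤ => (a : ℂ)) (c z)) B from rfl, h4] at h3
    omega

lemma expansive_of_period {m : ℕ} (η : Z2 → Fin m) {v : Z2} (hper : ∀ z, η (z + v) = η z)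
    (d : ℝ × ℝ) (hd : d.2 * (v.1 : ℝ) - d.1 * (v.2 : ℝ) ≠ 0) :
    ∃ t : ℝ, 0 < t ∧ ∀ x y : ℤ × ℤ → Fin m,
          (∀ S : Finset (ℤ × ℤ), ∃ u : ℤ × ℤ, ∀ s ∈ S, x s = η (s + u)) →
          (∀ S : Finset (ℤ × ℤ), ∃ u : ℤ × ℤ, ∀ s ∈ S, y s = η (s + u)) →
          (∀ p : ℤ × ℤ, |d.2 * (p.1 : ℝ) - d.1 * (p.2 : ℝ)| ≤ t → x p = y p) →
          x = y := by
  set L : ℝ := d.2 * (v.1 : ℝ) - d.1 * (v.2 : ℝ) with hL
  have key : ∀ x : ℤ × ℤ → Fin m, (∀ S : Finset (ℤ × ℤ), ∃ u : ℤ × ℤ, ∀ s ∈ S, x s = η (s + u)) →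
      ∀ z : ℤ × ℤ, ∀ k : ℤ, x (z + k • v) = x z := by
    intro x hx z k
    obtain ⟨u, hu⟩ := hx {z + k • v, z}
    rw [hu _ (by simp), hu z (by simp)]
    have hk : ∀ k : ℤ, ∀ z, η (z + k • v) = η z := by
      intro k
      induction k using Int.induction_on with
      | zero => intro z; simp
      | succ n ih => intro z; rw [add_smul, one_smul, ← add_assoc, hper, ih]
      | pred n ih =>
        intro z
        have := hper (z + (-(n:ℤ) - 1) • v)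
        rw [← this, ← ih z]
        congr 1
        rw [sub_smul, one_smul]
        abel
    rw [add_right_comm, hk]
  refine ⟨|L|, abs_pos.2 hd, fun x y hx hy hxy => ?_⟩
  funext z
  set r : ℝ := d.2 * (z.1 : ℝ) - d.1 * (z.2 : ℝ) with hr
  set k : ℤ := ⌊r / L⌋ with hk
  have h1 : |d.2 * (((z + (-k) • v).1 : ℤ) : ℝ) - d.1 * (((z + (-k) • v).2 : ℤ) : ℝ)| ≤ |L| := by
    have : d.2 * (((z + (-k) • v).1 : ℤ) : ℝ) - d.1 * (((z + (-k) • v).2 : ℤ) : ℝ) = (r / L - k) * L := by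
      have hL' : L ≠ 0 := hd
      rw [sub_mul, div_mul_cancel₀ _ hL', hr, hL]
      simp only [Prod.fst_add, Prod.snd_add, Prod.smul_fst, Prod.smul_snd, smul_eq_mul]
      push_cast
      ring
    rw [this, abs_mul]
    have h2 : |r / L - k| ≤ 1 := by
      rw [abs_le]
      constructor
      · have := Int.floor_le (r / L)
        linarith
      · have := Int.lt_floor_add_one (r / L)
        linarith
    nlinarith [abs_nonneg L]
  have h2 := hxy _ h1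
  rw [← key x hx z (-k), ← key y hy z (-k)]
  exact h2

theorem final : ∀ (m : ℕ) (η : ℤ × ℤ → Fin m),
    (∃ n k : ℕ, 0 < n ∧ 0 < k ∧
      (Set.range (fun u : ℤ × ℤ =>
        fun s : ↥(Finset.Ico (0:ℤ) (n:ℤ) ×ˢ Finset.Ico (0:ℤ) (k:ℤ)) =>
          η ((s : ℤ × ℤ) + u))).ncard ≤ n * k) →
    ∀ d₁ d₂ : ℝ × ℝ, d₁ ≠ 0 → d₂ ≠ 0 →
      (¬ ∃ t : ℝ, 0 < t ∧ ∀ x y : ℤ × ℤ → Fin m,
          (∀ S : Finset (ℤ × ℤ), ∃ u : ℤ × ℤ, ∀ s ∈ S, x s = η (s + u)) →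
          (∀ S : Finset (ℤ × ℤ), ∃ u : ℤ × ℤ, ∀ s ∈ S, y s = η (s + u)) →
          (∀ p : ℤ × ℤ, |d₁.2 * (p.1 : ℝ) - d₁.1 * (p.2 : ℝ)| ≤ t → x p = y p) →
          x = y) →
      (¬ ∃ t : ℝ, 0 < t ∧ ∀ x y : ℤ × ℤ → Fin m,
          (∀ S : Finset (ℤ × ℤ), ∃ u : ℤ × ℤ, ∀ s ∈ S, x s = η (s + u)) →
          (∀ S : Finset (ℤ × ℤ), ∃ u : ℤ × ℤ, ∀ s ∈ S, y s = η (s + u)) →
          (∀ p : ℤ × ℤ, |d₂.2 * (p.1 : ℝ) - d₂.1 * (p.2 : ℝ)| ≤ t → x p = y p) →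
          x = y) →
      d₁.1 * d₂.2 = d₁.2 * d₂.1 := by
  rintro m η ⟨n, k, hn, hk, hP⟩ d₁ d₂ hd₁ hd₂ h₁ h₂
  obtain ⟨v, hv, hper⟩ := nivat η hn hk hP
  have e1 : d₁.2 * (v.1 : ℝ) - d₁.1 * (v.2 : ℝ) = 0 := by
    by_contra h
    exact h₁ (expansive_of_period η hper d₁ h)
  have e2 : d₂.2 * (v.1 : ℝ) - d₂.1 * (v.2 : ℝ) = 0 := by
    by_contra h
    exact h₂ (expansive_of_period η hper d₂ h)
  have hv' : (v.1 : ℝ) ≠ 0 ∨ (v.2 : ℝ) ≠ 0 := by
    by_contra h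
    push Not at h
    apply hv
    ext
    · exact_mod_cast h.1
    · exact_mod_cast h.2
  rcases hv' with h | h
  · apply mul_right_cancel₀ h
    linear_combination (-d₁.1) * e2 * (-1) + (-d₂.1) * e1 
  · apply mul_right_cancel₀ h
    linear_combination (d₁.2) * e2 - (d₂.2) * e1

end Pool.Agent.MP_d2d690_an
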