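import Pool.Agent.Lib.MP_d2d690_an.Defs

set_option autoImplicit false
open Polynomial

namespace Pool.Agent.MP_d2d690_an

theorem linR {ι κ : Type*} [Fintype ι] [Fintype κ] (P : Set (ι → ℂ)) (hP : P.Finite)
    (π : (ι → ℂ) →ₗ[ℂ] (κ → ℂ)) :
    (π '' P).ncard + Module.finrank ℂ (Submodule.span ℂ {d | ∃ p ∈ P, ∃ q ∈ P, π p = π q ∧ d = p - q})
      ≤ P.ncard := by
  classical
  -- a section of `π` over `π '' P`
  have hsec : ∀ f : κ → ℂ, ∃ p : ι → ℂ, f ∈ π '' P → p ∈ P ∧ π p = f := by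
    intro f
    by_cases hf : f ∈ π '' P
    · obtain ⟨p, hp, rfl⟩ := hf
      exact ⟨p, fun _ => ⟨hp, rfl⟩⟩
    · exact ⟨0, fun h => absurd h hf⟩
  choose σ hσ using hsec
  have hσP : ∀ p ∈ P, σ (π p) ∈ P ∧ π (σ (π p)) = π p := fun p hp => hσ _ ⟨p, hp, rfl⟩
  have hsub : σ '' (π '' P) ⊆ P := by
    rintro _ ⟨f, ⟨p, hp, rfl⟩, rfl⟩
    exact (hσP p hp).1
  have hinj : Set.InjOn σ (π '' P) := by
    intro f hf g hg hfg
    rw [← (hσ f hf).2, ← (hσ g hg).2, hfg]
  have hcard : (σ '' (π '' P)).ncard = (π '' P).ncard := Set.InjOn.ncard_image hinj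
  set G : Set (ι → ℂ) := (fun p => p - σ (π p)) '' (P \ σ '' (π '' P)) with hG
  have hPdfin : (P \ σ '' (π '' P)).Finite := hP.subset Set.sdiff_subset
  have hGfin : G.Finite := hPdfin.image _
  have hGcard : G.ncard ≤ P.ncard - (π '' P).ncard := by
    calc G.ncard ≤ (P \ σ '' (π '' P)).ncard := Set.ncard_image_le hPdfin
      _ = P.ncard - (σ '' (π '' P)).ncard := Set.ncard_sdiff hsub (hP.subset hsub)
      _ = P.ncard - (π '' P).ncard := by rw [hcard]
  have hle : (π '' P).ncard ≤ P.ncard := by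
    rw [← hcard]; exact Set.ncard_le_ncard hsub hP
  have hmem : ∀ p ∈ P, p - σ (π p) ∈ Submodule.span ℂ G := by
    intro p hp
    by_cases h : p ∈ σ '' (π '' P)
    · obtain ⟨f, hf, rfl⟩ := h
      rw [(hσ f hf).2, sub_self]
      exact Submodule.zero_mem _
    · exact Submodule.subset_span ⟨p, ⟨hp, h⟩, rfl⟩
  have hspan : Submodule.span ℂ {d | ∃ p ∈ P, ∃ q ∈ P, π p = π q ∧ d = p - q} ≤
      Submodule.span ℂ G := by
    rw [Submodule.span_le]
    rintro _ ⟨p, hp, q, hq, hpq, rfl⟩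
    have h1 : p - q = (p - σ (π p)) - (q - σ (π q)) := by rw [hpq]; abel
    rw [h1]
    exact Submodule.sub_mem _ (hmem p hp) (hmem q hq)
  have h2 : Module.finrank ℂ (Submodule.span ℂ {d | ∃ p ∈ P, ∃ q ∈ P, π p = π q ∧ d = p - q}) ≤
      G.ncard := by
    refine (Submodule.finrank_mono hspan).trans ?_
    have h3 := finrank_span_finset_le_card (R := ℂ) hGfin.toFinset
    rw [Set.ncard_eq_toFinset_card G hGfin]
    rw [Set.Finite.coe_toFinset] at h3
    exact h3
  omega

theorem linQ {ι : Type*} [Fintype ι] (P : Set (ι → ℂ)) (hP : P.Finite) (hne : P.Nonempty)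
    (S : Submodule ℂ (ι → ℂ)) (hS : S ≤ Submodule.span ℂ {d | ∃ p ∈ P, ∃ q ∈ P, d = p - q})
    (Z : Finset Z2) (h : Z2 → (ι → ℂ) → ℂ) (σ : Type*) (q00 q10 q01 q11 : σ → (ι → ℂ))
    (m00 : ∀ s, q00 s ∈ P) (m10 : ∀ s, q10 s ∈ P) (m01 : ∀ s, q01 s ∈ P) (m11 : ∀ s, q11 s ∈ P)
    (hsum : ∀ s, q00 s + q11 s = q10 s + q01 s)
    (hind : ∀ c : Z2 → ℂ,
      (∀ s, ∑ z ∈ Z, c z * (h z (q11 s) - h z (q10 s) - h z (q01 s) + h z (q00 s)) = 0) →
      ∀ z ∈ Z, c z = 0) :
    1 + Module.finrank ℂ S + Z.card ≤ P.ncard := by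
  classical
  have : Fintype P := hP.fintype
  obtain ⟨pr, hpr⟩ := LinearMap.exists_leftInverse_of_injective S.subtype (by simp)
  have hpr' : ∀ s : S, pr (s : ι → ℂ) = s := fun s => LinearMap.congr_fun hpr s
  let Ψ : (ℂ × Module.Dual ℂ S × (Z → ℂ)) →ₗ[ℂ] (P → ℂ) :=
    { toFun := fun x p => x.1 + x.2.1 (pr p) + ∑ z : Z, x.2.2 z * h z p
      map_add' := by
        intro x y
        funext p
        simp only [Prod.fst_add, Prod.snd_add, LinearMap.add_apply, Pi.add_apply, add_mul,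
          Finset.sum_add_distrib]
        ring
      map_smul' := by
        intro a x
        funext p
        simp only [Prod.smul_fst, Prod.smul_snd, LinearMap.smul_apply, Pi.smul_apply, smul_eq_mul,
          RingHom.id_apply, mul_add, Finset.mul_sum, mul_assoc] }
  have hΨ : ∀ x (p : P), Ψ x p = x.1 + x.2.1 (pr p) + ∑ z : Z, x.2.2 z * h z p := fun _ _ => rfl
  have hinj : Function.Injective Ψ := by
    rw [← LinearMap.ker_eq_bot, LinearMap.ker_eq_bot']
    rintro ⟨a, φ, c⟩ hx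
    have hx' : ∀ p ∈ P, a + φ (pr p) + ∑ z : Z, c z * h z p = 0 := by
      intro p hp
      have := congrFun hx ⟨p, hp⟩
      rw [hΨ] at this
      exact this
    have hc : c = 0 := by
      funext z
      have := hind (fun z => if hz : z ∈ Z then c ⟨z, hz⟩ else 0) ?_ z z.2
      · simpa using this
      · intro s
        have e1 := hx' _ (m11 s)
        have e2 := hx' _ (m10 s)
        have e3 := hx' _ (m01 s)
        have e4 := hx' _ (m00 s)
        have e5 : φ (pr (q00 s)) + φ (pr (q11 s)) = φ (pr (q10 s)) + φ (pr (q01 s)) := by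
          rw [← map_add, ← map_add, hsum, map_add, map_add]
        rw [← Finset.sum_coe_sort]
        have e6 : ∑ z : Z, (if hz : (z : Z2) ∈ Z then c ⟨z, hz⟩ else 0) *
            (h z (q11 s) - h z (q10 s) - h z (q01 s) + h z (q00 s)) =
            (∑ z : Z, c z * h z (q11 s)) - (∑ z : Z, c z * h z (q10 s)) -
            (∑ z : Z, c z * h z (q01 s)) + ∑ z : Z, c z * h z (q00 s) := by
          rw [← Finset.sum_sub_distrib, ← Finset.sum_sub_distrib, ← Finset.sum_add_distrib]
          refine Finset.sum_congr rfl fun z _ => ?_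
          simp only [z.2, dif_pos]
          ring
        rw [e6]
        linear_combination e1 - e2 - e3 + e4 - e5
    have hx2 : ∀ p ∈ P, a + φ (pr p) = 0 := by
      intro p hp
      have := hx' p hp
      simpa [hc] using this
    have hφ : φ = 0 := by
      have h1 : Submodule.span ℂ {d | ∃ p ∈ P, ∃ q ∈ P, d = p - q} ≤ LinearMap.ker (φ.comp pr) := by
        rw [Submodule.span_le]
        rintro _ ⟨p, hp, q, hq, rfl⟩
        rw [SetLike.mem_coe, LinearMap.mem_ker, map_sub, LinearMap.comp_apply, LinearMap.comp_apply]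
        linear_combination hx2 p hp - hx2 q hq
      ext s
      have h2 := h1 (hS s.2)
      rw [LinearMap.mem_ker, LinearMap.comp_apply, hpr'] at h2
      simpa using h2
    have ha : a = 0 := by
      obtain ⟨p, hp⟩ := hne
      have := hx2 p hp
      simpa [hφ] using this
    rw [ha, hφ, hc]
    rfl
  have hfr := LinearMap.finrank_le_finrank_of_injective hinj
  rw [Module.finrank_prod, Module.finrank_prod, Module.finrank_self, Subspace.dual_finrank_eq,
    Module.finrank_fintype_fun_eq_card, Module.finrank_fintype_fun_eq_card, Fintype.card_coe] at hfr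
  rw [← Nat.card_coe_set_eq, Nat.card_eq_fintype_card]
  omega

end Pool.Agent.MP_d2d690_an
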