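import Pool.Agent.Lib.MP_d2d690_an.Span
import Pool.Agent.Lib.MP_d2d690_an.Peel
import Pool.Agent.Lib.MP_d2d690_an.Rect
import Pool.Agent.Lib.MP_d2d690_an.LinAlg

/-!
# Module SQUARE: parallelograms in the orbit closure
-/

set_option autoImplicit false
open Polynomial

namespace Pool.Agent.MP_d2d690_an

namespace Sq

open Pool.Agent.MP_d2d690_an.Span

lemma PhiL_monic (Λ : Finset ℂ) : (PhiL Λ).Monic := by
  unfold PhiL
  exact monic_prod_of_monic _ _ fun l _ => monic_X_sub_C l

lemma PhiL_natDegree (Λ : Finset ℂ) : (PhiL Λ).natDegree = Λ.card := by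
  unfold PhiL
  rw [natDegree_prod_of_monic _ _ fun l _ => monic_X_sub_C l]
  simp

lemma PhiL_coeff_zero {Λ : Finset ℂ} (h : (0 : ℂ) ∉ Λ) : (PhiL Λ).coeff 0 ≠ 0 := by
  rw [coeff_zero_eq_eval_zero]
  unfold PhiL
  rw [eval_prod, Finset.prod_ne_zero_iff]
  intro l hl
  simp only [eval_sub, eval_X, eval_C, zero_sub, ne_eq, neg_eq_zero]
  rintro rfl
  exact h hl

lemma card_pos_of_HPdata {e : Z2 → ℂ} {w ν : Z2} {Λ : Finset ℂ} (h : HPdata e w ν Λ) :
    0 < Λ.card := by
  rw [Finset.card_pos, Finset.nonempty_iff_ne_empty]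
  rintro rfl
  apply h.ne
  have := h.ann
  simpa [PhiL, pa] using this

lemma pa_comm (f g : ℂ[X]) (w v : Z2) (x : Z2 → ℂ) : pa f w (pa g v x) = pa g v (pa f w x) := by
  have h1 : Commute (pa f w) (T v) := pa_T_comm f w v
  have h2 : Commute (pa f w) (pa g v) := by
    conv_rhs => unfold pa
    rw [aeval_eq_sum_range]
    exact Commute.sum_right _ _ _ fun i _ => (h1.pow_right i).smul_right _
  have h3 := congrArg (fun L : Module.End ℂ (Z2 → ℂ) => L x) h2.eq
  simpa [Module.End.mul_apply] using h3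

/-- extension by zero -/
noncomputable def ext (B : Finset Z2) : (B → ℂ) →ₗ[ℂ] (Z2 → ℂ) := by
  classical
  exact
  { toFun := fun p z => if h : z ∈ B then p ⟨z, h⟩ else 0
    map_add' := by
      intro p q
      funext z
      by_cases h : z ∈ B <;> simp [h]
    map_smul' := by
      intro a p
      funext z
      by_cases h : z ∈ B <;> simp [h] }

lemma ext_of_mem {B : Finset Z2} (p : B → ℂ) {z : Z2} (h : z ∈ B) : ext B p z = p ⟨z, h⟩ := by
  simp [ext, h]

lemma pa_ext {B : Finset Z2} (f : ℂ[X]) (w z s : Z2) (x : Z2 → ℂ)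
    (h : ∀ i : ℕ, i ≤ f.natDegree → z + i • w ∈ B) :
    pa f w (ext B (fun b : B => x ((b : Z2) + s))) z = pa f w x (z + s) := by
  rw [pa_apply, pa_apply]
  refine Finset.sum_congr rfl fun i hi => ?_
  rw [Finset.mem_range] at hi
  rw [ext_of_mem _ (h i (by omega))]
  simp only
  rw [add_right_comm]

lemma HP_pa {x : Z2 → ℂ} {ν : Z2} (f : ℂ[X]) (w : Z2) (h : HP ν x) : HP ν (pa f w x) := by
  obtain ⟨t, ht⟩ := h
  refine ⟨t - f.natDegree * |dot w ν|, fun z hz => ?_⟩
  rw [pa_apply]
  refine Finset.sum_eq_zero fun i hi => ?_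
  rw [Finset.mem_range] at hi
  rw [ht, mul_zero]
  rw [dot_add, dot_nsmul]
  have h1 : (i : ℤ) * dot w ν ≤ f.natDegree * |dot w ν| := by
    have h2 : (i : ℤ) ≤ f.natDegree := by exact_mod_cast Nat.lt_succ_iff.1 hi
    calc (i : ℤ) * dot w ν ≤ i * |dot w ν| :=
          mul_le_mul_of_nonneg_left (le_abs_self _) (by positivity)
      _ ≤ f.natDegree * |dot w ν| := mul_le_mul_of_nonneg_right h2 (abs_nonneg _)
  linarith

lemma exists_min {x : Z2 → ℂ} {ν : Z2} (h : HP ν x) (hne : x ≠ 0) :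
    ∃ z0, x z0 ≠ 0 ∧ ∀ z, dot z ν < dot z0 ν → x z = 0 := by
  obtain ⟨t, ht⟩ := h
  have h1 : ∃ z, x z ≠ 0 := by
    by_contra hcon
    push Not at hcon
    exact hne (funext hcon)
  obtain ⟨z1, hz1⟩ := h1
  obtain ⟨lb, ⟨z0, hz0, hz0'⟩, hmin⟩ := Int.exists_least_of_bdd
    (P := fun n => ∃ z, x z ≠ 0 ∧ dot z ν = n)
    ⟨t, by
      rintro n ⟨z, hz, rfl⟩
      by_contra hcon
      exact hz (ht z (by omega))⟩
    ⟨dot z1 ν, z1, hz1, rfl⟩
  refine ⟨z0, hz0, fun z hz => ?_⟩
  by_contra hcon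
  have := hmin (dot z ν) ⟨z, hcon, rfl⟩
  omega

lemma rec_zero {a : ℤ → ℂ} {f : ℂ[X]} {d : ℕ} (hd : f.natDegree = d) (hm : f.Monic)
    (hf0 : f.coeff 0 ≠ 0) (h : ∀ i : ℤ, ∑ k ∈ Finset.range (d + 1), f.coeff k * a (i + k) = 0)
    {i0 : ℤ} (h0 : ∀ i, i0 < i → i ≤ i0 + d → a i = 0) : ∀ i, a i = 0 := by
  have hfd : f.coeff d = 1 := by rw [← hd]; exact hm
  have fwd : ∀ n : ℕ, ∀ i, i0 < i → i ≤ i0 + d + n → a i = 0 := by
    intro n
    induction n with
    | zero => intro i h1 h2; exact h0 i h1 (by simpa using h2)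
    | succ n ih =>
      intro i h1 h2
      push_cast at h2
      by_cases h3 : i ≤ i0 + d + n
      · exact ih i h1 h3
      · have h4 := h (i - d)
        rw [Finset.sum_range_succ, Finset.sum_eq_zero] at h4
        · rw [hfd, one_mul, zero_add] at h4
          rw [show i - (d : ℤ) + d = i by ring] at h4
          exact h4
        · intro k hk
          rw [Finset.mem_range] at hk
          rw [ih (i - d + k) (by omega) (by omega), mul_zero]
  have bwd : ∀ n : ℕ, ∀ i, i0 - n < i → i ≤ i0 + d → a i = 0 := by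
    intro n
    induction n with
    | zero => intro i h1 h2; exact h0 i (by simpa using h1) h2
    | succ n ih =>
      intro i h1 h2
      push_cast at h1
      by_cases h3 : i0 - n < i
      · exact ih i h3 h2
      · have h4 := h i
        rw [Finset.sum_range_succ', Finset.sum_eq_zero] at h4
        · simp only [zero_add, Nat.cast_zero, add_zero] at h4
          rcases mul_eq_zero.1 h4 with h5 | h5
          · exact absurd h5 hf0
          · exact h5
        · intro k hk
          rw [Finset.mem_range] at hk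
          push_cast
          by_cases h5 : i + (k + 1) ≤ i0 + d
          · rw [ih (i + (k + 1)) (by omega) h5, mul_zero]
          · exfalso
            omega
  intro i
  by_cases h1 : i0 < i
  · exact fwd (i - i0).toNat i h1 (by omega)
  · by_cases h2 : i ≤ i0 + d
    · exact bwd (i0 - i + 1).toNat i (by omega) h2
    · omega

lemma exists_ne {x : Z2 → ℂ} {w z0 : Z2} {Λ : Finset ℂ} (h0 : (0 : ℂ) ∉ Λ)
    (hann : pa (PhiL Λ) w x = 0) (hz0 : x z0 ≠ 0) (i0 : ℤ) :
    ∃ i : ℤ, i0 < i ∧ i ≤ i0 + Λ.card ∧ x (z0 + i • w) ≠ 0 := by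
  by_contra hcon
  push Not at hcon
  have h1 := rec_zero (a := fun i : ℤ => x (z0 + i • w)) (f := PhiL Λ) (d := Λ.card)
    (PhiL_natDegree Λ) (PhiL_monic Λ) (PhiL_coeff_zero h0)
    (by
      intro i
      have h2 := congrFun hann (z0 + i • w)
      rw [pa_apply, PhiL_natDegree] at h2
      rw [Pi.zero_apply] at h2
      rw [← h2]
      refine Finset.sum_congr rfl fun k _ => ?_
      rw [add_smul, natCast_zsmul, add_assoc])
    (i0 := i0) hcon 0
  simp only [zero_smul, add_zero] at h1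
  exact hz0 h1

lemma dot_perp (a b ν : Z2) (h : ν = perp b ∨ ν = -perp b) (hdet : det b a ≠ 0) : dot a ν ≠ 0 := by
  rcases h with rfl | rfl
  · simp only [dot, perp, det] at *
    intro h'
    apply hdet
    linear_combination h'
  · simp only [dot, perp, det, Prod.fst_neg, Prod.snd_neg] at *
    intro h'
    apply hdet
    linear_combination -h'

lemma det_ne_swap {a b : Z2} (h : det a b ≠ 0) : det b a ≠ 0 := by
  simp only [det] at *
  intro h'
  apply h
  linear_combination -h'

lemma dot_self_zero {w ν : Z2} (h : ν = perp w ∨ ν = -perp w) : dot w ν = 0 := by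
  rcases h with rfl | rfl <;> simp only [dot, perp, Prod.fst_neg, Prod.snd_neg] <;> ring

/-- `e2' = Phi1(T^w1) e2` again satisfies the hypotheses -/
lemma HPdata_pa {e : Z2 → ℂ} {w ν : Z2} {Λ : Finset ℂ} (h : HPdata e w ν Λ) {w' : Z2}
    {Λ' : Finset ℂ} (h0 : (0 : ℂ) ∉ Λ') (hdet : det w w' ≠ 0) :
    HPdata (pa (PhiL Λ') w' e) w ν Λ := by
  have hd := dot_perp w' w ν h.nu hdet
  refine ⟨?_, h.prim, h.nu, HP_pa _ _ h.hp, h.zero_not_mem, ?_, ?_⟩
  · intro h'
    exact h.ne (peel (PhiL_coeff_zero h0) hd h.hp h')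
  · rw [pa_comm, h.ann, map_zero]
  · intro l hl h'
    rw [pa_comm] at h'
    exact h.min l hl (peel (PhiL_coeff_zero h0) hd (HP_pa _ _ h.hp) h')

lemma mem_Pats {c x : Z2 → ℂ} (h : x ∈ Hull c) (B : Finset Z2) (s : Z2) :
    (fun b : B => x ((b : Z2) + s)) ∈ Pats c B := by
  classical
  obtain ⟨u, hu⟩ := h (B.image fun b => b + s)
  refine ⟨s + u, ?_⟩
  funext b
  have := hu ((b : Z2) + s) (Finset.mem_image_of_mem _ b.2)
  simp only
  rw [this, add_assoc]

lemma Pats_finite {c : Z2 → ℂ} (hc : (Set.range c).Finite) (B : Finset Z2) :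
    (Pats c B).Finite := by
  refine Set.Finite.subset (Set.Finite.pi' (fun _ : B => hc)) ?_
  rintro p ⟨u, rfl⟩ b
  exact ⟨_, rfl⟩

/-- restriction of `f(T^w)` to patterns -/
noncomputable def proj (B B' : Finset Z2) (f : ℂ[X]) (w : Z2) : (B → ℂ) →ₗ[ℂ] (B' → ℂ) :=
  (LinearMap.funLeft ℂ ℂ (fun z : B' => (z : Z2))).comp ((pa f w).comp (ext B))

lemma proj_apply (B B' : Finset Z2) (f : ℂ[X]) (w : Z2) (p : B → ℂ) (z : B') :
    proj B B' f w p z = pa f w (ext B p) z := rfl

/-- dimension of the span of the translates of two half plane configurations -/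
lemma dim_two {e1 e2 : Z2 → ℂ} {w1 ν1 w2 ν2 : Z2} {Λ1 Λ2 : Finset ℂ}
    (H1 : HPdata e1 w1 ν1 Λ1) (H2 : HPdata e2 w2 ν2 Λ2) (hdet : det w1 w2 ≠ 0) {B : Finset Z2}
    (hB : IsRect B) :
    B.card ≤ (minusB (minusB B (Λ1.card • w1)) (Λ2.card • w2)).card +
      Module.finrank ℂ
        ((Submodule.span ℂ (Set.range fun s : Z2 => fun b : B => e1 ((b : Z2) + s))) ⊔
        (Submodule.span ℂ (Set.range fun s : Z2 => fun b : B => e2 ((b : Z2) + s))) :
          Submodule ℂ (B → ℂ)) := by
  set S1 := Submodule.span ℂ (Set.range fun s : Z2 => fun b : B => e1 ((b : Z2) + s)) with hS1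
  set S2 := Submodule.span ℂ (Set.range fun s : Z2 => fun b : B => e2 ((b : Z2) + s)) with hS2
  set S := S1 ⊔ S2 with hS
  set Bm := minusB B (Λ1.card • w1) with hBm
  have hBmR : IsRect Bm := rect_minus hB _
  have hconv : ∀ z ∈ Bm, ∀ i : ℕ, i ≤ (PhiL Λ1).natDegree → z + i • w1 ∈ B := by
    intro z hz i hi
    rw [PhiL_natDegree] at hi
    rw [hBm, minusB, Finset.mem_filter] at hz
    exact rect_conv hB w1 z hz.1 _ hz.2 i hi
  set e2' := pa (PhiL Λ1) w1 e2 with he2'
  have H2' : HPdata e2' w2 ν2 Λ2 := HPdata_pa H2 H1.zero_not_mem (det_ne_swap hdet)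
  have d1 := span_translates H1 B (fun z hz j hj i hi => rect_conv hB w1 z hz j hj i hi)
  have d2 := span_translates H2' Bm (fun z hz j hj i hi => rect_conv hBmR w2 z hz j hj i hi)
  rw [← hS1, ← hBm] at d1
  set S2' := Submodule.span ℂ (Set.range fun s : Z2 => fun b : Bm => e2' ((b : Z2) + s)) with hS2'
  let π := proj B Bm (PhiL Λ1) w1
  have hπ : ∀ (x : Z2 → ℂ) (s : Z2), π (fun b : B => x ((b : Z2) + s)) =
      fun z : Bm => pa (PhiL Λ1) w1 x ((z : Z2) + s) := by
    intro x s
    funext z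
    rw [proj_apply]
    exact pa_ext _ _ _ _ _ (hconv z z.2)
  have hker : S1 ≤ LinearMap.ker π := by
    rw [hS1, Submodule.span_le]
    rintro _ ⟨s, rfl⟩
    rw [SetLike.mem_coe, LinearMap.mem_ker, hπ, H1.ann]
    rfl
  have hrange : S2' ≤ S.map π := by
    rw [hS2', Submodule.span_le]
    rintro _ ⟨s, rfl⟩
    refine ⟨fun b : B => e2 ((b : Z2) + s), ?_, hπ e2 s⟩
    exact Submodule.mem_sup_right (Submodule.subset_span ⟨s, rfl⟩)
  have hrn := LinearMap.finrank_range_add_finrank_ker (π.comp S.subtype)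
  have hr : Module.finrank ℂ S2' ≤ Module.finrank ℂ (LinearMap.range (π.comp S.subtype)) := by
    apply Submodule.finrank_mono
    rw [LinearMap.range_comp, Submodule.range_subtype]
    exact hrange
  have hk : Module.finrank ℂ S1 ≤ Module.finrank ℂ (LinearMap.ker (π.comp S.subtype)) := by
    have hle : S1 ≤ S := le_sup_left
    have h1 : Module.finrank ℂ (Submodule.comap S.subtype S1) = Module.finrank ℂ S1 :=
      (Submodule.comapSubtypeEquivOfLe hle).finrank_eq
    rw [← h1]
    apply Submodule.finrank_mono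
    intro x hx
    rw [LinearMap.mem_ker]
    exact LinearMap.mem_ker.1 (hker (Submodule.mem_comap.1 hx))
  omega

end Sq

open Pool.Agent.MP_d2d690_an.Span Pool.Agent.MP_d2d690_an.Sq in
theorem square {c x00 x10 x01 x11 e1 e2 : Z2 → ℂ} {w1 ν1 w2 ν2 : Z2} {Λ1 Λ2 : Finset ℂ}
    (hc : (Set.range c).Finite) (m00 : x00 ∈ Hull c) (m10 : x10 ∈ Hull c) (m01 : x01 ∈ Hull c)
    (m11 : x11 ∈ Hull c) (h10 : x10 = x00 + e1) (h01 : x01 = x00 + e2) (h11 : x11 = x00 + e1 + e2)
    (H1 : HPdata e1 w1 ν1 Λ1) (H2 : HPdata e2 w2 ν2 Λ2) (hdet : det w1 w2 ≠ 0) {B : Finset Z2}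
    (hB : IsRect B) : B.card + 1 ≤ (Pats c B).ncard := by
  classical
  have hdim := dim_two H1 H2 hdet hB
  set S1 := Submodule.span ℂ (Set.range fun s : Z2 => fun b : B => e1 ((b : Z2) + s)) with hS1
  set S2 := Submodule.span ℂ (Set.range fun s : Z2 => fun b : B => e2 ((b : Z2) + s)) with hS2
  set e1' := pa (PhiL Λ2) w2 e1 with he1'
  set e2' := pa (PhiL Λ1) w1 e2 with he2'
  have H1' : HPdata e1' w1 ν1 Λ1 := HPdata_pa H1 H2.zero_not_mem hdet
  have H2' : HPdata e2' w2 ν2 Λ2 := HPdata_pa H2 H1.zero_not_mem (det_ne_swap hdet)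
  obtain ⟨z1, hz1, hz1min⟩ := exists_min H1'.hp H1'.ne
  obtain ⟨z2, hz2, hz2min⟩ := exists_min H2'.hp H2'.ne
  obtain ⟨i, j, hi, hj, hcount⟩ := delta_count hB hdet (card_pos_of_HPdata H1)
    (card_pos_of_HPdata H2) z1 z2 (fun i => e1' (z1 + i • w1) ≠ 0) (fun j => e2' (z2 + j • w2) ≠ 0)
    (exists_ne H1.zero_not_mem H1'.ann hz1) (exists_ne H2.zero_not_mem H2'.ann hz2)
  set n1 := z1 + i • w1 with hn1
  set n2 := z2 + j • w2 with hn2
  set δ := n2 - n1 with hδ
  set Z := B.filter (fun z => z + Λ2.card • w2 ∈ B ∧ z + δ ∈ B ∧ z + δ + Λ1.card • w1 ∈ B) with hZ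
  have hdn1 : dot n1 ν1 = dot z1 ν1 := by
    rw [hn1, dot_add, dot_zsmul, dot_self_zero H1.nu]; ring
  have hdn2 : dot n2 ν2 = dot z2 ν2 := by
    rw [hn2, dot_add, dot_zsmul, dot_self_zero H2.nu]; ring
  have hdiff : ∀ s : Z2, ∀ z ∈ Z, ∀ x : Z2 → ℂ,
      pa (PhiL Λ2) w2 (ext B (fun b : B => x ((b : Z2) + s))) z = pa (PhiL Λ2) w2 x (z + s) := by
    intro s z hz x
    rw [hZ, Finset.mem_filter] at hz
    apply pa_ext
    intro k hk
    rw [PhiL_natDegree] at hk
    exact rect_conv hB w2 z hz.1 _ hz.2.1 k hk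
  have hdiff' : ∀ s : Z2, ∀ z ∈ Z, ∀ x : Z2 → ℂ,
      pa (PhiL Λ1) w1 (ext B (fun b : B => x ((b : Z2) + s))) (z + δ) =
        pa (PhiL Λ1) w1 x (z + δ + s) := by
    intro s z hz x
    rw [hZ, Finset.mem_filter] at hz
    apply pa_ext
    intro k hk
    rw [PhiL_natDegree] at hk
    exact rect_conv hB w1 (z + δ) hz.2.2.1 _ hz.2.2.2 k hk
  have main := linQ (Pats c B) (Pats_finite hc B) ⟨_, mem_Pats m00 B 0⟩ (S1 ⊔ S2)
    (by
      rw [sup_le_iff]
      constructor
      · rw [hS1, Submodule.span_le]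
        rintro _ ⟨s, rfl⟩
        apply Submodule.subset_span
        refine ⟨_, mem_Pats m10 B s, _, mem_Pats m00 B s, ?_⟩
        funext b
        simp [h10]
      · rw [hS2, Submodule.span_le]
        rintro _ ⟨s, rfl⟩
        apply Submodule.subset_span
        refine ⟨_, mem_Pats m01 B s, _, mem_Pats m00 B s, ?_⟩
        funext b
        simp [h01])
    Z (fun z p => pa (PhiL Λ2) w2 (ext B p) z * pa (PhiL Λ1) w1 (ext B p) (z + δ)) Z2
    (fun s => fun b : B => x00 ((b : Z2) + s)) (fun s => fun b : B => x10 ((b : Z2) + s))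
    (fun s => fun b : B => x01 ((b : Z2) + s)) (fun s => fun b : B => x11 ((b : Z2) + s))
    (mem_Pats m00 B) (mem_Pats m10 B) (mem_Pats m01 B) (mem_Pats m11 B)
    (by
      intro s
      funext b
      simp only [Pi.add_apply, h10, h01, h11]
      ring)
    (by
      intro cc hcc
      have hcc' : ∀ s : Z2, ∑ z ∈ Z, cc z * (e1' (z + s) * e2' (z + δ + s)) = 0 := by
        intro s
        rw [← hcc s]
        refine Finset.sum_congr rfl fun z hz => ?_
        rw [hdiff s z hz, hdiff s z hz, hdiff s z hz, hdiff s z hz, hdiff' s z hz, hdiff' s z hz,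
          hdiff' s z hz, hdiff' s z hz, h10, h01, h11]
        simp only [map_add, Pi.add_apply, H1.ann, H2.ann, Pi.zero_apply]
        rw [← he1', ← he2']
        ring
      by_contra hcon
      push Not at hcon
      obtain ⟨za, hza, hza'⟩ := hcon
      obtain ⟨zs, hzs, hmax⟩ := Finset.exists_max_image (Z.filter fun z => cc z ≠ 0)
        (fun z => dot z ν1 + dot z ν2) ⟨za, Finset.mem_filter.2 ⟨hza, hza'⟩⟩
      rw [Finset.mem_filter] at hzs
      have h1 := hcc' (n1 - zs)
      rw [Finset.sum_eq_single zs] at h1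
      · rw [show zs + (n1 - zs) = n1 by abel, show zs + δ + (n1 - zs) = n2 by rw [hδ]; abel] at h1
        rcases mul_eq_zero.1 h1 with h2 | h2
        · exact hzs.2 h2
        · rcases mul_eq_zero.1 h2 with h3 | h3
          · exact hi h3
          · exact hj h3
      · intro z hz hne
        by_cases hcz : cc z = 0
        · rw [hcz, zero_mul]
        · have hm := hmax z (Finset.mem_filter.2 ⟨hz, hcz⟩)
          by_contra hcon
          have h2 : e1' (z + (n1 - zs)) ≠ 0 := fun h' => hcon (by rw [h']; ring)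
          have h3 : e2' (z + δ + (n1 - zs)) ≠ 0 := fun h' => hcon (by rw [h']; ring)
          have h4 : dot zs ν1 ≤ dot z ν1 := by
            by_contra h'
            apply h2
            apply hz1min
            rw [← hdn1, show z + (n1 - zs) = z + n1 + (-1 : ℤ) • zs by simp; abel, dot_add, dot_add,
              dot_zsmul]
            linarith
          have h5 : dot zs ν2 ≤ dot z ν2 := by
            by_contra h'
            apply h3
            apply hz2min
            rw [← hdn2, show z + δ + (n1 - zs) = z + n2 + (-1 : ℤ) • zs by rw [hδ]; simp; abel,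
              dot_add, dot_add, dot_zsmul]
            linarith
          have h6 : dot z ν1 = dot zs ν1 := by linarith
          have h7 : dot z ν2 = dot zs ν2 := by linarith
          apply hne
          have hd : det w1 w2 ≠ 0 := hdet
          have e1 : (z.1 - zs.1) * w1.2 = (z.2 - zs.2) * w1.1 := by
            rcases H1.nu with h8 | h8 <;> rw [h8] at h6 <;>
              simp only [dot, perp, Prod.fst_neg, Prod.snd_neg] at h6 <;> linarith
          have e2 : (z.1 - zs.1) * w2.2 = (z.2 - zs.2) * w2.1 := by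
            rcases H2.nu with h8 | h8 <;> rw [h8] at h7 <;>
              simp only [dot, perp, Prod.fst_neg, Prod.snd_neg] at h7 <;> linarith
          have e3 : (z.1 - zs.1) * det w1 w2 = 0 := by
            simp only [det]; linear_combination w1.1 * e2 - w2.1 * e1
          have e4 : (z.2 - zs.2) * det w1 w2 = 0 := by
            simp only [det]; linear_combination w1.2 * e2 - w2.2 * e1
          ext
          · rcases mul_eq_zero.1 e3 with h9 | h9
            · linarith
            · exact absurd h9 hd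
          · rcases mul_eq_zero.1 e4 with h9 | h9
            · linarith
            · exact absurd h9 hd
      · intro h'
        exact absurd hzs.1 h')
  omega

end Pool.Agent.MP_d2d690_an
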