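import Pool.Agent.Lib.MP_d2d690_an.Defs
import Pool.Agent.Lib.MP_d2d690_an.Rect
import Pool.Agent.Lib.MP_d2d690_an.Fibre
import Pool.Agent.Lib.MP_d2d690_an.Square
import Pool.Agent.Lib.MP_d2d690_an.CaseA
import Pool.Agent.Lib.MP_d2d690_an.CaseB

/-!
# The lower bound for the complexity of non periodic configurations with an annihilator
-/

set_option autoImplicit false
open Polynomial
namespace Pool.Agent.MP_d2d690_an

lemma pats_empty {A : Type*} (c : Z2 → A) : (Pats c ∅).ncard = 1 := by
  unfold Pats
  rw [Set.ncard_eq_one]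
  refine ⟨fun s => c (s : Z2), ?_⟩
  ext f
  simp only [Set.mem_range, Set.mem_singleton_iff]
  constructor
  · rintro ⟨u, rfl⟩
    funext s
    exact absurd s.2 (Finset.notMem_empty _)
  · rintro rfl
    refine ⟨0, ?_⟩
    funext s
    simp

lemma annBy_pa {V : List Z2} {c : Z2 → ℂ} (f : ℂ[X]) (w : Z2) (h : AnnBy V c) : AnnBy V (pa f w c) := by
  unfold AnnBy at *
  have hcomm : ∀ V : List Z2, (V.map (fun v => T v - 1)).prod * pa f w = pa f w * (V.map (fun v => T v - 1)).prod := by
    intro V
    induction V with
    | nil => simp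
    | cons v V ih =>
      simp only [List.map_cons, List.prod_cons]
      rw [mul_assoc, ih, ← mul_assoc, ← mul_assoc, sub_mul, mul_sub, pa_T_comm, one_mul, mul_one]
  have := congrArg (fun g => g c) (hcomm V)
  simp only [Module.End.mul_apply] at this
  rw [this, h, map_zero]

lemma finite_range_pa {c : Z2 → ℂ} (f : ℂ[X]) (w : Z2) (hc : (Set.range c).Finite) :
    (Set.range (pa f w c)).Finite := by
  have : Set.range (pa f w c) ⊆
      (fun g : Fin (f.natDegree + 1) → ℂ => ∑ i : Fin (f.natDegree + 1), f.coeff i * g i) ''
        (Set.pi Set.univ (fun _ => Set.range c)) := by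
    rintro _ ⟨z, rfl⟩
    refine ⟨fun i => c (z + (i : ℕ) • w), ?_, ?_⟩
    · intro i _
      exact ⟨_, rfl⟩
    · rw [pa_apply, Finset.sum_range]
  exact ((Set.Finite.pi' (fun _ => hc)).subset (by
    intro g hg i; exact hg i (Set.mem_univ i)) |>.image _).subset this

/-- MAIN -/
theorem main_lower (V : List Z2) (hV : ∀ v ∈ V, v ≠ 0) (N : ℕ) : ∀ (B : Finset Z2), IsRect B → B.card ≤ N →
    ∀ c : Z2 → ℂ, (Set.range c).Finite → AnnBy V c → ¬ Per1 c → B.card + 1 ≤ (Pats c B).ncard := by
  induction N with
  | zero =>
    intro B hB hN c hc hann h1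
    have hB0 : B = ∅ := Finset.card_eq_zero.1 (by omega)
    subst hB0
    rw [pats_empty]
    simp
  | succ N ih =>
    intro B hB hN c hc hann h1
    by_cases hB0 : B = ∅
    · subst hB0
      rw [pats_empty]
      simp
    have hne : B.Nonempty := Finset.nonempty_iff_ne_empty.2 hB0
    by_cases h2 : Per2 c
    · obtain ⟨x00, x10, x01, x11, e1, e2, w1, ν1, w2, ν2, Λ1, Λ2, m00, m10, m01, m11, h10, h01, h11, H1, H2, hdet⟩ :=
        caseB hc h1 h2
      exact square hc m00 m10 m01 m11 h10 h01 h11 H1 H2 hdet hB
    · obtain ⟨x, hx, y, hy, w, ν, Λ, q, hq, H, hdvd⟩ := caseA V hV hc hann h1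
      have hΛ : 0 < Λ.card := by
        rw [Finset.card_pos, Finset.nonempty_iff_ne_empty]
        rintro rfl
        have := H.ann
        apply H.ne
        simpa [PhiL, pa] using this
      have hw : w ≠ 0 := by
        rintro rfl
        have := H.prim
        simp [IsCoprime] at this
      have hv : Λ.card • w ≠ 0 := by
        intro h
        rcases smul_eq_zero.1 h with h | h
        · omega
        · exact hw h
      have hlt := rect_minus_lt hB hne hv
      set c' := pa (PhiL Λ) w c with hc'
      have hc'1 : ¬ Per1 c' := by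
        rintro ⟨v, hv0, hv1⟩
        apply h2
        obtain ⟨g, hg⟩ := hdvd
        refine ⟨v, q • w, hv0, ?_, ?_⟩
        · intro h
          rcases smul_eq_zero.1 h with h | h
          · omega
          · exact hw h
        · have h3 : (T (q • w) - 1) = pa (X ^ q - 1) w := by
            unfold pa
            simp [T_pow]
          rw [h3, hg, mul_comm, pa_mul, Module.End.mul_apply, ← hc']
          have h4 : (T v - 1) (pa g w c') = pa g w ((T v - 1) c') := by
            have := congrArg (fun F => F c') (pa_T_comm g w v)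
            simp only [Module.End.mul_apply] at this
            rw [LinearMap.sub_apply, LinearMap.sub_apply, map_sub, this]
            simp
          rw [h4, hv1, map_zero]
      have hrec := ih (minusB B (Λ.card • w)) (rect_minus hB _) (by omega) c' (finite_range_pa _ _ hc)
        (annBy_pa _ _ hann) hc'1
      have hf := fibre hc hx hy H hB
      rw [← hc'] at hf
      omega

end Pool.Agent.MP_d2d690_an
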